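import Pool.Agent.Helper75.GC.FamH
import Mathlib.Topology.MetricSpace.HausdorffDimension

/-!
# Project GM: the condition on the velocity holds for almost every parameter after an arbitrarily small perturbation of the family
-/

open MeasureTheory Real Set Filter Topology

set_option autoImplicit false

namespace Pool.Agent.Helper75.GCF

open Pool.Agent.Helper22.AE

/-- the range of a `C¹` curve in the plane is a null set -/
theorem curve_null {f : ℝ → ℝ × ℝ} (h : ContDiff ℝ 1 f) : volume (range f) = 0 := by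
  have h1 : dimH (range f) < ((2 : NNReal) : ENNReal) := by
    refine h.dimH_range_le.trans_lt ?_
    rw [Module.finrank_self]
    norm_num
  have h2 := hausdorffMeasure_of_dimH_lt h1
  rw [← hausdorffMeasure_prod_real]
  exact_mod_cast h2

/-- the perturbation -/
noncomputable def pg (k : ℕ) (α β t : ℝ) : ℝ := α * cos (k * t) + β * sin (k * t)

/-- its derivative -/
noncomputable def pg' (k : ℕ) (α β t : ℝ) : ℝ := k * (β * cos (k * t) - α * sin (k * t))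

theorem pg_hd (k : ℕ) (α β t : ℝ) : HasDerivAt (pg k α β) (pg' k α β t) t := by
  unfold pg pg'
  have h0 : HasDerivAt (fun t : ℝ => (k : ℝ) * t) k t := by simpa using (hasDerivAt_id t).const_mul (k : ℝ)
  refine ((h0.cos.const_mul α).add (h0.sin.const_mul β)).congr_deriv ?_
  ring

theorem pg'_hd (k : ℕ) (α β t : ℝ) : HasDerivAt (pg' k α β) (-(k : ℝ) ^ 2 * pg k α β t) t := by
  unfold pg pg'
  have h0 : HasDerivAt (fun t : ℝ => (k : ℝ) * t) k t := by simpa using (hasDerivAt_id t).const_mul (k : ℝ)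
  refine (((h0.cos.const_mul β).sub (h0.sin.const_mul α)).const_mul (k : ℝ)).congr_deriv ?_
  ring

/-- `α`, `β` from the values of `g`, `g'` -/
theorem pg_inv {k : ℕ} (hk : k ≠ 0) (α β t : ℝ) : α = pg k α β t * cos (k * t) - pg' k α β t * sin (k * t) / k ∧
    β = pg k α β t * sin (k * t) + pg' k α β t * cos (k * t) / k := by
  have hk' : (k : ℝ) ≠ 0 := Nat.cast_ne_zero.2 hk
  have h := sin_sq_add_cos_sq ((k : ℝ) * t)
  unfold pg pg'
  constructor
  · field_simp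
    linear_combination -α * h
  · field_simp
    linear_combination -β * h

/-- for fixed functions `f`, `e` of one variable: almost all perturbations are nondegenerate -/
theorem null_one {k : ℕ} (hk : 2 ≤ k) {E M : ℝ} (hE : E ≠ 0) {f f1 f2 e e1 e2 : ℝ → ℝ} (cf : ContDiff ℝ 1 f) (cf1 : ContDiff ℝ 1 f1) (cf2 : ContDiff ℝ 1 f2)
    (ce : ContDiff ℝ 1 e) (ce1 : ContDiff ℝ 1 e1) (ce2 : ContDiff ℝ 1 e2) (h1 : ∀ t, 0 < M * f t - e t)
    (h2 : ∀ t, 0 < (k : ℝ) ^ 2 * (M * f t - e t) + (M * f2 t - e2 t)) :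
    volume {τ : ℝ × ℝ | ∃ t, e1 t * f t - e t * f1 t + E * (1 - (k : ℝ) ^ 2) * (pg' k τ.1 τ.2 t * (M * f t - e t) - pg k τ.1 τ.2 t * (M * f1 t - e1 t)) = 0 ∧
      e2 t * f t - e t * f2 t + E * (1 - (k : ℝ) ^ 2) * (-(k : ℝ) ^ 2 * pg k τ.1 τ.2 t * (M * f t - e t) - pg k τ.1 τ.2 t * (M * f2 t - e2 t)) = 0} = 0 := by
  have hk0 : (2 : ℝ) ≤ k := by exact_mod_cast hk
  obtain ⟨K, hK⟩ : ∃ K : ℝ, K = E * (1 - (k : ℝ) ^ 2) := ⟨_, rfl⟩
  have hK0 : K ≠ 0 := by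
    rw [hK]
    refine mul_ne_zero hE ?_
    nlinarith
  obtain ⟨A, hA⟩ : ∃ A : ℝ → ℝ, A = fun t => (e2 t * f t - e t * f2 t) / (K * ((k : ℝ) ^ 2 * (M * f t - e t) + (M * f2 t - e2 t))) := ⟨_, rfl⟩
  obtain ⟨B, hB⟩ : ∃ B : ℝ → ℝ, B = fun t => (A t * (M * f1 t - e1 t) - (e1 t * f t - e t * f1 t) / K) / (M * f t - e t) := ⟨_, rfl⟩
  have cA : ContDiff ℝ 1 A := by
    rw [hA]
    refine ((ce2.mul cf).sub (ce.mul cf2)).div (contDiff_const.mul ((contDiff_const.mul ((contDiff_const.mul cf).sub ce)).add ((contDiff_const.mul cf2).sub ce2))) fun t => ?_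
    exact mul_ne_zero hK0 (h2 t).ne'
  have cB : ContDiff ℝ 1 B := by
    rw [hB]
    refine ((cA.mul ((contDiff_const.mul cf1).sub ce1)).sub (((ce1.mul cf).sub (ce.mul cf1)).div_const K)).div ((contDiff_const.mul cf).sub ce) fun t => (h1 t).ne'
  have c1 : ContDiff ℝ 1 fun t : ℝ => cos (k * t) := by fun_prop
  have c2 : ContDiff ℝ 1 fun t : ℝ => sin (k * t) := by fun_prop
  have cΦ : ContDiff ℝ 1 fun t => (A t * cos (k * t) - B t * sin (k * t) / k, A t * sin (k * t) + B t * cos (k * t) / k) :=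
    ((cA.mul c1).sub ((cB.mul c2).div_const _)).prodMk ((cA.mul c2).add ((cB.mul c1).div_const _))
  refine measure_mono_null ?_ (curve_null cΦ)
  rintro ⟨α, β⟩ ⟨t, g1, g2⟩
  simp only at g1 g2
  rw [← hK] at g1 g2
  refine ⟨t, ?_⟩
  have hA1 : A t = pg k α β t := by
    rw [hA]
    simp only
    rw [div_eq_iff (mul_ne_zero hK0 (h2 t).ne')]
    linarith
  have hB1 : B t = pg' k α β t := by
    rw [hB]
    simp only
    rw [hA1, div_eq_iff (h1 t).ne', sub_eq_iff_eq_add, eq_comm]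
    rw [← mul_left_inj' hK0, add_mul, div_mul_cancel₀ _ hK0]
    linarith
  obtain ⟨i1, i2⟩ := pg_inv (show k ≠ 0 by omega) α β t
  simp only
  rw [hA1, hB1, ← i1, ← i2]

/-- nondegenerate critical points of a quotient -/
theorem quot_nd {n n1 n2 d d1 d2 : ℝ → ℝ} (hn : ∀ t, HasDerivAt n (n1 t) t) (hn1 : ∀ t, HasDerivAt n1 (n2 t) t) (hd : ∀ t, HasDerivAt d (d1 t) t)
    (hd1 : ∀ t, HasDerivAt d1 (d2 t) t) (hpos : ∀ t, 0 < d t) (h : ∀ t, n1 t * d t - n t * d1 t ≠ 0 ∨ n2 t * d t - n t * d2 t ≠ 0) (t : ℝ) :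
    deriv (fun t => n t / d t) t ≠ 0 ∨ deriv (deriv fun t => n t / d t) t ≠ 0 := by
  have e3 : deriv (fun t => n t / d t) = fun t => (n1 t * d t - n t * d1 t) / d t ^ 2 := by
    funext t
    exact ((hn t).div (hd t) (hpos t).ne').deriv
  rw [e3]
  by_contra hcon
  push Not at hcon
  obtain ⟨h2, h3⟩ := hcon
  have hp2 := pow_pos (hpos t) 2
  have h4 : n1 t * d t - n t * d1 t = 0 := by
    rcases div_eq_zero_iff.1 h2 with h | h
    · exact h
    · exact absurd h hp2.ne'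
  have h8 : HasDerivAt (fun t => n1 t * d t - n t * d1 t) (n2 t * d t - n t * d2 t) t := by
    refine (((hn1 t).mul (hd t)).sub ((hn t).mul (hd1 t))).congr_deriv ?_
    ring
  have h5 := h8.div ((hd t).pow 2) hp2.ne'
  have h6 : deriv (fun t => (n1 t * d t - n t * d1 t) / d t ^ 2) t = _ := h5.deriv
  rw [h6] at h3
  simp only [Pi.pow_apply, h4, zero_mul, sub_zero] at h3
  have h7 : n2 t * d t - n t * d2 t = 0 := by
    rcases div_eq_zero_iff.1 h3 with h | h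
    · rcases mul_eq_zero.1 h with h | h
      · exact h
      · exact absurd h hp2.ne'
    · exact absurd h (by positivity)
  rcases h t with h | h
  · exact h h4
  · exact h h7

/-- `2π`-periodicity in the last variable -/
def Per3 (F : ℝ × ℝ × ℝ → ℝ) : Prop := ∀ z : ℝ × ℝ × ℝ, F (z + (0, 0, 2 * π)) = F z

theorem Per3.fd {F : ℝ × ℝ × ℝ → ℝ} (h : Per3 F) (z : ℝ × ℝ × ℝ) : fderiv ℝ F (z + (0, 0, 2 * π)) = fderiv ℝ F z := by
  rw [← fderiv_comp_add_right]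
  congr 1
  funext z
  exact h z

theorem Per3.dt {F : ℝ × ℝ × ℝ → ℝ} (h : Per3 F) : Per3 (Dt F) := fun z => by
  unfold Dt
  rw [h.fd]

theorem Per3.ds {F : ℝ × ℝ × ℝ → ℝ} (h : Per3 F) : Per3 (Ds F) := fun z => by
  unfold Ds
  rw [h.fd]

theorem Per3.red {F : ℝ × ℝ × ℝ → ℝ} (h : Per3 F) (s t : ℝ) : ∃ t' ∈ Icc (0 : ℝ) (2 * π), F (0, s, t) = F (0, s, t') := by
  have hp : Function.Periodic (fun t => F (0, s, t)) (2 * π) := fun t => by
    have := h (0, s, t)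
    simpa using this
  have hpi : 0 < 2 * π := by positivity
  have h3 := toIcoMod_add_toIcoDiv_zsmul hpi 0 t
  rw [zsmul_eq_mul] at h3
  have h4 := toIcoMod_mem_Ico hpi 0 t
  refine ⟨toIcoMod hpi 0 t, ⟨h4.1, by linarith [h4.2]⟩, ?_⟩
  have h5 := hp.int_mul (toIcoDiv hpi 0 t) (toIcoMod hpi 0 t)
  rw [h3] at h5
  exact h5

theorem Per3.bdd {F : ℝ × ℝ × ℝ → ℝ} (h : Per3 F) (hc : Continuous F) (p q : ℝ) : ∃ K : ℝ, 0 ≤ K ∧ ∀ s ∈ Icc p q, ∀ t, |F (0, s, t)| ≤ K := by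
  have hk : IsCompact (({0} : Set ℝ) ×ˢ (Icc p q ×ˢ Icc (0 : ℝ) (2 * π))) := isCompact_singleton.prod (isCompact_Icc.prod isCompact_Icc)
  obtain ⟨K, hK⟩ := hk.exists_bound_of_continuousOn hc.continuousOn
  refine ⟨max K 0, le_max_right _ _, fun s hs t => ?_⟩
  obtain ⟨t', ht', e⟩ := h.red s t
  rw [e]
  exact (hK (0, s, t') ⟨rfl, hs, ht'⟩).trans (le_max_left _ _)

theorem Per3.low {F : ℝ × ℝ × ℝ → ℝ} (h : Per3 F) (hc : Continuous F) {p q : ℝ} (hpos : ∀ s ∈ Icc p q, ∀ t, 0 < F (0, s, t)) :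
    ∃ c : ℝ, 0 < c ∧ ∀ s ∈ Icc p q, ∀ t, c ≤ F (0, s, t) := by
  have hk : IsCompact (({0} : Set ℝ) ×ˢ (Icc p q ×ˢ Icc (0 : ℝ) (2 * π))) := isCompact_singleton.prod (isCompact_Icc.prod isCompact_Icc)
  rcases (({0} : Set ℝ) ×ˢ (Icc p q ×ˢ Icc (0 : ℝ) (2 * π))).eq_empty_or_nonempty with he | hne
  · refine ⟨1, one_pos, fun s hs t => ?_⟩
    exfalso
    have : ((0, s, 0) : ℝ × ℝ × ℝ) ∈ ({0} : Set ℝ) ×ˢ (Icc p q ×ˢ Icc (0 : ℝ) (2 * π)) := ⟨rfl, hs, le_rfl, by positivity⟩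
    rw [he] at this
    exact this
  · obtain ⟨z, hz, hmin⟩ := hk.exists_isMinOn hne hc.continuousOn
    have hz0 : z = (0, z.2.1, z.2.2) := by
      have : z.1 = 0 := hz.1
      rw [← this]
    refine ⟨F z, ?_, fun s hs t => ?_⟩
    · rw [hz0]
      exact hpos _ hz.2.1 _
    · obtain ⟨t', ht', e⟩ := h.red s t
      rw [e]
      exact hmin (show ((0, s, t') : ℝ × ℝ × ℝ) ∈ _ from ⟨rfl, hs, ht'⟩)

/-- an arbitrarily small perturbation has the Morse property for almost every parameter in a compact interval -/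
theorem dense_fam {H : ℝ → ℝ → ℝ} (h : ContDiff ℝ 7 fun q : ℝ × ℝ => H q.1 q.2) (hp : ∀ s, Function.Periodic (H s) (2 * π)) {p q : ℝ}
    (hr : ∀ s ∈ Icc p q, ∀ t, 0 < rho (H s) t) : ∃ (M : ℝ) (k : ℕ), ∀ δ : ℝ, 0 < δ → ∃ α β : ℝ, |α| < δ ∧ |β| < δ ∧ ∀ᵐ s : ℝ, s ∈ Icc p q →
      (∀ t, 0 < rho (fun t => H s t + exp (M * s) * pg k α β t) t) ∧ Mo (fun s t => H s t + exp (M * s) * pg k α β t) s := by
  have h0 : ContDiff ℝ ((7 : ℕ) : ℕ∞) fun q : ℝ × ℝ => H q.1 q.2 := h.of_le (by norm_cast)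
  have h1 : ContDiff ℝ ((6 : ℕ) : ℕ∞) fun q : ℝ × ℝ => Hd H q.1 q.2 := Hd_sm h0
  have h2 : ContDiff ℝ ((5 : ℕ) : ℕ∞) fun q : ℝ × ℝ => Hd (Hd H) q.1 q.2 := Hd_sm h1
  have hrs : ContDiff ℝ ((5 : ℕ) : ℕ∞) fun q : ℝ × ℝ => rho (H q.1) q.2 := (h0.of_le (by norm_cast)).add h2
  obtain ⟨F, hF⟩ : ∃ F : ℝ × ℝ × ℝ → ℝ, F = fun z => rho (H z.2.1) z.2.2 := ⟨_, rfl⟩
  have cF : ContDiff ℝ ((5 : ℕ) : ℕ∞) F := by
    rw [hF]
    exact hrs.comp contDiff_snd
  have c1 : ContDiff ℝ ((4 : ℕ) : ℕ∞) (Dt F) := Dt_sm cF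
  have c2 : ContDiff ℝ ((3 : ℕ) : ℕ∞) (Dt (Dt F)) := Dt_sm c1
  have d0 : ContDiff ℝ ((4 : ℕ) : ℕ∞) (Ds F) := Ds_sm cF
  have d1 : ContDiff ℝ ((3 : ℕ) : ℕ∞) (Dt (Ds F)) := Dt_sm d0
  have d2 : ContDiff ℝ ((2 : ℕ) : ℕ∞) (Dt (Dt (Ds F))) := Dt_sm d1
  have pF : Per3 F := fun z => by
    rw [hF]
    simp only [Prod.snd_add, Prod.fst_add, add_zero]
    unfold rho
    rw [hp, deriv_per (deriv_per (hp _))]
  obtain ⟨c, hc, hlow⟩ := pF.low cF.continuous (p := p) (q := q) (fun s hs t => by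
    rw [hF]
    exact hr s hs t)
  obtain ⟨K0, hK0, hb0⟩ := pF.ds.bdd d0.continuous p q
  obtain ⟨K1, hK1, hb1⟩ := pF.dt.dt.bdd c2.continuous p q
  obtain ⟨K2, hK2, hb2⟩ := pF.ds.dt.dt.bdd d2.continuous p q
  obtain ⟨M, hM⟩ : ∃ M : ℝ, M = (K0 + 1) / c := ⟨_, rfl⟩
  have hM0 : 0 ≤ M := by
    rw [hM]
    positivity
  have g1 : ∀ s ∈ Icc p q, ∀ t, 1 ≤ M * F (0, s, t) - Ds F (0, s, t) := by
    intro s hs t
    have e1 := hlow s hs t
    have e2 := (abs_le.1 (hb0 s hs t)).2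
    have e3 : M * c = K0 + 1 := by
      rw [hM]
      field_simp
    nlinarith [mul_le_mul_of_nonneg_left e1 hM0]
  obtain ⟨n, hn⟩ := exists_nat_gt (M * K1 + K2)
  obtain ⟨k, hk⟩ : ∃ k : ℕ, k = max n 2 := ⟨_, rfl⟩
  have hk2 : 2 ≤ k := by
    rw [hk]
    exact le_max_right _ _
  have hk2' : (2 : ℝ) ≤ k := by exact_mod_cast hk2
  have hkn : (n : ℝ) ≤ k := by
    rw [hk]
    exact_mod_cast le_max_left _ _
  have g2 : ∀ s ∈ Icc p q, ∀ t, 0 < (k : ℝ) ^ 2 * (M * F (0, s, t) - Ds F (0, s, t)) + (M * Dt (Dt F) (0, s, t) - Dt (Dt (Ds F)) (0, s, t)) := by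
    intro s hs t
    have e1 := g1 s hs t
    have e2 := (abs_le.1 (hb1 s hs t)).1
    have e3 := (abs_le.1 (hb2 s hs t)).2
    have e4 : -(M * K1) ≤ M * Dt (Dt F) (0, s, t) := by
      have := mul_le_mul_of_nonneg_left e2 hM0
      linarith
    have e5 : (k : ℝ) ≤ (k : ℝ) ^ 2 * (M * F (0, s, t) - Ds F (0, s, t)) := by
      have : (k : ℝ) ^ 2 * 1 ≤ (k : ℝ) ^ 2 * (M * F (0, s, t) - Ds F (0, s, t)) := mul_le_mul_of_nonneg_left e1 (by positivity)
      nlinarith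
    linarith
  obtain ⟨κ, hκ⟩ : ∃ κ : ℝ, κ = 1 - (k : ℝ) ^ 2 := ⟨_, rfl⟩
  -- the two functions
  obtain ⟨W, hW⟩ : ∃ W : (ℝ × ℝ × ℝ) × ℝ → ℝ, W = fun y => Dt (Ds F) (0, y.1.1, y.2) * F (0, y.1.1, y.2) - Ds F (0, y.1.1, y.2) * Dt F (0, y.1.1, y.2) +
      exp (M * y.1.1) * κ * (pg' k y.1.2.1 y.1.2.2 y.2 * (M * F (0, y.1.1, y.2) - Ds F (0, y.1.1, y.2)) -
        pg k y.1.2.1 y.1.2.2 y.2 * (M * Dt F (0, y.1.1, y.2) - Dt (Ds F) (0, y.1.1, y.2))) := ⟨_, rfl⟩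
  obtain ⟨V, hV⟩ : ∃ V : (ℝ × ℝ × ℝ) × ℝ → ℝ, V = fun y => Dt (Dt (Ds F)) (0, y.1.1, y.2) * F (0, y.1.1, y.2) -
      Ds F (0, y.1.1, y.2) * Dt (Dt F) (0, y.1.1, y.2) +
      exp (M * y.1.1) * κ * (-(k : ℝ) ^ 2 * pg k y.1.2.1 y.1.2.2 y.2 * (M * F (0, y.1.1, y.2) - Ds F (0, y.1.1, y.2)) -
        pg k y.1.2.1 y.1.2.2 y.2 * (M * Dt (Dt F) (0, y.1.1, y.2) - Dt (Dt (Ds F)) (0, y.1.1, y.2))) := ⟨_, rfl⟩
  have cz : Continuous fun y : (ℝ × ℝ × ℝ) × ℝ => ((0, y.1.1, y.2) : ℝ × ℝ × ℝ) := by fun_prop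
  have cpg : Continuous fun y : (ℝ × ℝ × ℝ) × ℝ => pg k y.1.2.1 y.1.2.2 y.2 := by
    unfold pg
    fun_prop
  have cpg' : Continuous fun y : (ℝ × ℝ × ℝ) × ℝ => pg' k y.1.2.1 y.1.2.2 y.2 := by
    unfold pg'
    fun_prop
  have ce : Continuous fun y : (ℝ × ℝ × ℝ) × ℝ => exp (M * y.1.1) * κ := by fun_prop
  have k0 := cF.continuous.comp cz
  have k1 := c1.continuous.comp cz
  have k2 := c2.continuous.comp cz
  have l0 := d0.continuous.comp cz
  have l1 := d1.continuous.comp cz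
  have l2 := d2.continuous.comp cz
  have cW : Continuous W := by
    rw [hW]
    exact ((l1.mul k0).sub (l0.mul k1)).add (ce.mul ((cpg'.mul ((continuous_const.mul k0).sub l0)).sub (cpg.mul ((continuous_const.mul k1).sub l1))))
  have cV : Continuous V := by
    rw [hV]
    exact ((l2.mul k0).sub (l0.mul k2)).add (ce.mul (((continuous_const.mul cpg).mul ((continuous_const.mul k0).sub l0)).sub
      (cpg.mul ((continuous_const.mul k2).sub l2))))
  -- the bad set is a countable union of closed sets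
  have hmeas : MeasurableSet {y : ℝ × ℝ × ℝ | ∃ t, W (y, t) = 0 ∧ V (y, t) = 0} := by
    have e : {y : ℝ × ℝ × ℝ | ∃ t, W (y, t) = 0 ∧ V (y, t) = 0} = ⋃ n : ℕ, {y : ℝ × ℝ × ℝ | ∃ t ∈ Icc (-(n : ℝ)) n, W (y, t) = 0 ∧ V (y, t) = 0} := by
      ext y
      simp only [mem_ofPred_eq, mem_iUnion]
      constructor
      · rintro ⟨t, ht⟩
        obtain ⟨n, hn⟩ := exists_nat_ge |t|
        exact ⟨n, t, abs_le.1 hn, ht⟩
      · rintro ⟨n, t, -, ht⟩
        exact ⟨t, ht⟩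
    rw [e]
    refine MeasurableSet.iUnion fun n => IsClosed.measurableSet ?_
    have e2 : {y : ℝ × ℝ × ℝ | ∃ t ∈ Icc (-(n : ℝ)) n, W (y, t) = 0 ∧ V (y, t) = 0} =
        Prod.snd '' {x : (Icc (-(n : ℝ)) n) × (ℝ × ℝ × ℝ) | W (x.2, x.1) = 0 ∧ V (x.2, x.1) = 0} := by
      ext y
      simp only [mem_ofPred_eq, mem_image, Prod.exists, exists_eq_right, Subtype.exists, exists_prop]
    rw [e2]
    refine isClosedMap_snd_of_compactSpace _ ?_
    have e3 : Continuous fun x : (Icc (-(n : ℝ)) n) × (ℝ × ℝ × ℝ) => ((x.2, (x.1 : ℝ)) : (ℝ × ℝ × ℝ) × ℝ) :=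
      continuous_snd.prodMk (continuous_subtype_val.comp continuous_fst)
    exact (isClosed_eq (cW.comp e3) continuous_const).inter (isClosed_eq (cV.comp e3) continuous_const)
  have hae : ∀ᵐ τ : ℝ × ℝ, ∀ᵐ s ∂(volume.restrict (Icc p q)), ¬∃ t, W ((s, τ), t) = 0 ∧ V ((s, τ), t) = 0 := by
    rw [← Measure.ae_ae_comm (p := fun (s : ℝ) (τ : ℝ × ℝ) => ¬∃ t, W ((s, τ), t) = 0 ∧ V ((s, τ), t) = 0) hmeas.compl]
    rw [ae_restrict_iff' measurableSet_Icc]
    refine Eventually.of_forall fun s hs => ?_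
    rw [ae_iff]
    simp only [not_not]
    have cc : ContDiff ℝ 1 fun t : ℝ => ((0, s, t) : ℝ × ℝ × ℝ) := by fun_prop
    have h3 := null_one hk2 (E := exp (M * s)) (M := M) (exp_pos _).ne' (f := fun t => F (0, s, t)) (f1 := fun t => Dt F (0, s, t)) (f2 := fun t => Dt (Dt F) (0, s, t))
      (e := fun t => Ds F (0, s, t)) (e1 := fun t => Dt (Ds F) (0, s, t)) (e2 := fun t => Dt (Dt (Ds F)) (0, s, t))
      ((cF.of_le (by norm_cast)).comp cc) ((c1.of_le (by norm_cast)).comp cc) ((c2.of_le (by norm_cast)).comp cc)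
      ((d0.of_le (by norm_cast)).comp cc) ((d1.of_le (by norm_cast)).comp cc) ((d2.of_le (by norm_cast)).comp cc)
      (fun t => lt_of_lt_of_le one_pos (g1 s hs t)) (g2 s hs)
    rw [hW, hV, hκ]
    exact h3
  refine ⟨M, k, fun δ hδ => ?_⟩
  obtain ⟨δ₁, hδ₁⟩ : ∃ δ₁ : ℝ, δ₁ = c / (4 * ((k : ℝ) ^ 2 * exp (M * q))) := ⟨_, rfl⟩
  have hδ₁0 : 0 < δ₁ := by
    rw [hδ₁]
    have := exp_pos (M * q)
    positivity
  obtain ⟨⟨α, β⟩, hτ1, hτ2⟩ := (Measure.dense_of_ae hae).exists_mem_open (U := (Ioo (-(min δ δ₁)) (min δ δ₁)) ×ˢ (Ioo (-(min δ δ₁)) (min δ δ₁)))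
    (isOpen_Ioo.prod isOpen_Ioo) ⟨(0, 0), by
      have : 0 < min δ δ₁ := lt_min hδ hδ₁0
      exact ⟨⟨by linarith, this⟩, by linarith, this⟩⟩
  obtain ⟨hα, hβ⟩ := hτ2
  have hα' : |α| < min δ δ₁ := abs_lt.2 hα
  have hβ' : |β| < min δ δ₁ := abs_lt.2 hβ
  refine ⟨α, β, hα'.trans_le (min_le_left _ _), hβ'.trans_le (min_le_left _ _), ?_⟩
  rw [mem_ofPred_eq, ae_restrict_iff' measurableSet_Icc] at hτ1
  have hFs : ∀ s t, HasDerivAt (fun s => F (0, s, t)) (Ds F (0, s, t)) s := fun s t =>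
    Ds_hd (z := (0, s, t)) ((cF.differentiable (by norm_num)) _)
  have hFt : ∀ s t, HasDerivAt (fun t => F (0, s, t)) (Dt F (0, s, t)) t := fun s t =>
    Dt_hd (z := (0, s, t)) ((cF.differentiable (by norm_num)) _)
  have hFtt : ∀ s t, HasDerivAt (fun t => Dt F (0, s, t)) (Dt (Dt F) (0, s, t)) t := fun s t =>
    Dt_hd (F := Dt F) (z := (0, s, t)) ((c1.differentiable (by norm_num)) _)
  have hEt : ∀ s t, HasDerivAt (fun t => Ds F (0, s, t)) (Dt (Ds F) (0, s, t)) t := fun s t =>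
    Dt_hd (F := Ds F) (z := (0, s, t)) ((d0.differentiable (by norm_num)) _)
  have hEtt : ∀ s t, HasDerivAt (fun t => Dt (Ds F) (0, s, t)) (Dt (Dt (Ds F)) (0, s, t)) t := fun s t =>
    Dt_hd (F := Dt (Ds F)) (z := (0, s, t)) ((d1.differentiable (by norm_num)) _)
  have hHt : ∀ s t, HasDerivAt (H s) (deriv (H s) t) t := fun s t => by
    have h3 : ContDiff ℝ 7 (H s) := h.comp (contDiff_const.prodMk contDiff_id)
    exact ((h3.differentiable (by norm_num)) t).hasDerivAt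
  have hHtt : ∀ s t, HasDerivAt (deriv (H s)) (deriv (deriv (H s)) t) t := fun s t => by
    have h3 : ContDiff ℝ 7 (H s) := h.comp (contDiff_const.prodMk contDiff_id)
    exact (((h3.iterate_deriv' 6 1).differentiable (by norm_num)) t).hasDerivAt
  have erho : ∀ s t, rho (fun t => H s t + exp (M * s) * pg k α β t) t = F (0, s, t) + exp (M * s) * κ * pg k α β t := by
    intro s t
    have e1 : deriv (fun t => H s t + exp (M * s) * pg k α β t) = fun t => deriv (H s) t + exp (M * s) * pg' k α β t := by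
      funext t
      exact ((hHt s t).add ((pg_hd k α β t).const_mul _)).deriv
    have e2 : deriv (fun t => deriv (H s) t + exp (M * s) * pg' k α β t) t = deriv (deriv (H s)) t + exp (M * s) * (-(k : ℝ) ^ 2 * pg k α β t) :=
      ((hHtt s t).add ((pg'_hd k α β t).const_mul _)).deriv
    unfold rho
    rw [e1, e2, hF, hκ]
    unfold rho
    simp only
    ring
  filter_upwards [hτ1] with s hs hsI
  have hpos : ∀ t, 0 < F (0, s, t) + exp (M * s) * κ * pg k α β t := by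
    intro t
    have e1 := hlow s hsI t
    have e2 : |pg k α β t| ≤ 2 * δ₁ := by
      unfold pg
      have a1 := abs_cos_le_one ((k : ℝ) * t)
      have a2 := abs_sin_le_one ((k : ℝ) * t)
      have a3 : |α| ≤ δ₁ := (hα'.trans_le (min_le_right _ _)).le
      have a4 : |β| ≤ δ₁ := (hβ'.trans_le (min_le_right _ _)).le
      calc |α * cos (k * t) + β * sin (k * t)| ≤ |α * cos (k * t)| + |β * sin (k * t)| := abs_add_le _ _
        _ = |α| * |cos (k * t)| + |β| * |sin (k * t)| := by rw [abs_mul, abs_mul]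
        _ ≤ δ₁ * 1 + δ₁ * 1 := by gcongr
        _ = 2 * δ₁ := by ring
    have e3 : exp (M * s) ≤ exp (M * q) := exp_le_exp.2 (mul_le_mul_of_nonneg_left hsI.2 hM0)
    have e4 : |κ| ≤ (k : ℝ) ^ 2 := by
      rw [hκ, abs_le]
      constructor
      · nlinarith
      · nlinarith
    have e5 : |exp (M * s) * κ * pg k α β t| ≤ c / 2 := by
      rw [abs_mul, abs_mul, abs_of_pos (exp_pos _)]
      calc exp (M * s) * |κ| * |pg k α β t| ≤ exp (M * q) * (k : ℝ) ^ 2 * (2 * δ₁) := by gcongr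
        _ = c / 2 := by
          rw [hδ₁]
          have := exp_pos (M * q)
          field_simp
          ring
    have e6 := (abs_le.1 e5).1
    linarith
  refine ⟨fun t => ?_, ?_⟩
  · rw [erho]
    exact hpos t
  · have ev : vel (fun s t => H s t + exp (M * s) * pg k α β t) s = fun t => (Ds F (0, s, t) + M * exp (M * s) * κ * pg k α β t) /
        (F (0, s, t) + exp (M * s) * κ * pg k α β t) := by
      funext t
      unfold vel
      simp only [erho]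
      have e1 : HasDerivAt (fun s => F (0, s, t) + exp (M * s) * κ * pg k α β t) (Ds F (0, s, t) + M * exp (M * s) * κ * pg k α β t) s := by
        have e2 : HasDerivAt (fun s => exp (M * s)) (M * exp (M * s)) s := by
          have e3 : HasDerivAt (fun s : ℝ => M * s) M s := by simpa using (hasDerivAt_id s).const_mul M
          refine e3.exp.congr_deriv ?_
          ring
        exact (hFs s t).add ((e2.mul_const κ).mul_const _)
      exact (e1.log (hpos t).ne').deriv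
    unfold Mo
    rw [ev]
    refine quot_nd (n := fun t => Ds F (0, s, t) + M * exp (M * s) * κ * pg k α β t)
      (n1 := fun t => Dt (Ds F) (0, s, t) + M * exp (M * s) * κ * pg' k α β t)
      (n2 := fun t => Dt (Dt (Ds F)) (0, s, t) + M * exp (M * s) * κ * (-(k : ℝ) ^ 2 * pg k α β t))
      (d := fun t => F (0, s, t) + exp (M * s) * κ * pg k α β t)
      (d1 := fun t => Dt F (0, s, t) + exp (M * s) * κ * pg' k α β t)
      (d2 := fun t => Dt (Dt F) (0, s, t) + exp (M * s) * κ * (-(k : ℝ) ^ 2 * pg k α β t))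
      (fun t => (hEt s t).add ((pg_hd k α β t).const_mul _)) (fun t => (hEtt s t).add ((pg'_hd k α β t).const_mul _))
      (fun t => (hFt s t).add ((pg_hd k α β t).const_mul _)) (fun t => (hFtt s t).add ((pg'_hd k α β t).const_mul _)) hpos fun t => ?_
    by_contra hcon
    push Not at hcon
    obtain ⟨g3, g4⟩ := hcon
    refine hs hsI ⟨t, ?_, ?_⟩
    · rw [hW]
      simp only
      linear_combination g3
    · rw [hV]
      simp only
      linear_combination g4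

end Pool.Agent.Helper75.GCF
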