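import Pool.Agent.Helper75.GC.Forms

/-!
# Project GM: curves of positive definite quadratic forms
-/

open MeasureTheory Real Set Filter Topology

set_option autoImplicit false

namespace Pool.Agent.Helper75.GCF

open Pool.Agent.Helper22.AE
open Pool.Agent.Helper22.AC (cntc)

theorem rho_He {a b c : ℝ} (ha : 0 < a) (hd : b ^ 2 < 4 * a * c) (θ : ℝ) : 0 < rho (He a b c) θ ∧
    log (rho (He a b c) θ) = -(1 / 2) * log 4 + 1 / 2 * log (4 * a * c - b ^ 2) - 3 / 2 * log (qt c (-b) a θ) := by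
  have hc := pd_c ha hd
  have hD : 0 < 4 * a * c - b ^ 2 := by linarith
  have hg : 0 < qt c (-b) a θ := qt_pos hc (by nlinarith) θ
  obtain ⟨D, hDD⟩ : ∃ D, D = 4 * a * c - b ^ 2 := ⟨_, rfl⟩
  rw [← hDD] at hD ⊢
  have e1 : 4 * (4 * c / D) * (4 * a / D) - (-(4 * b) / D) ^ 2 = 16 / D := by
    rw [hDD]
    rw [hDD] at hD
    field_simp
    ring
  have e2 : ∀ θ, qt (4 * c / D) (-(4 * b) / D) (4 * a / D) θ = 4 / D * qt c (-b) a θ := by
    intro θ
    unfold qt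
    ring
  have h1 := rho_sqrt (A := 4 * c / D) (B := -(4 * b) / D) (C := 4 * a / D) (by positivity) (by
    have : 0 < 16 / D := by positivity
    linarith) θ
  have e3 : He a b c = fun θ => √(qt (4 * c / D) (-(4 * b) / D) (4 * a / D) θ) := by
    funext θ
    unfold He
    rw [← hDD]
  rw [e3, h1, e1, e2]
  have hq : 0 < 4 / D * qt c (-b) a θ := by positivity
  have hs : 0 < √(4 / D * qt c (-b) a θ) := sqrt_pos.2 hq
  refine ⟨by positivity, ?_⟩
  rw [log_div (by positivity) (by positivity), log_mul (by norm_num) (by positivity), log_pow, log_sqrt hq.le, log_mul (by positivity) hg.ne',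
    log_div (by norm_num) hD.ne', log_div (by norm_num) hD.ne']
  have h16 : log 16 = 2 * log 4 := by
    rw [show (16 : ℝ) = 4 ^ 2 by norm_num, log_pow]
    push_cast
    ring
  rw [h16]
  push_cast
  ring

theorem forms_vel {a b c : ℝ → ℝ} {a' b' c' : ℝ} {s : ℝ} (ha : HasDerivAt a a' s) (hb : HasDerivAt b b' s) (hc : HasDerivAt c c' s)
    (h0 : 0 < a s) (hd : b s ^ 2 < 4 * a s * c s) (θ : ℝ) : vel (fun s => He (a s) (b s) (c s)) s θ =
      1 / 2 * ((4 * (a' * c s + a s * c') - 2 * b s * b') / (4 * a s * c s - b s ^ 2)) - 3 / 2 * (qt c' (-b') a' θ / qt (c s) (-b s) (a s) θ) := by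
  have hc0 := pd_c h0 hd
  have hD : 0 < 4 * a s * c s - b s ^ 2 := by linarith
  have hg : 0 < qt (c s) (-b s) (a s) θ := qt_pos hc0 (by nlinarith) θ
  have h1 : HasDerivAt (fun s => 4 * a s * c s - b s ^ 2) (4 * (a' * c s + a s * c') - 2 * b s * b') s := by
    have := ((ha.const_mul 4).mul hc).sub (hb.pow 2)
    refine this.congr_deriv ?_
    push_cast
    ring
  have h2 : HasDerivAt (fun s => qt (c s) (-b s) (a s) θ) (qt c' (-b') a' θ) s := by
    have := ((hc.mul_const (cos θ ^ 2)).add (hb.neg.mul_const (cos θ * sin θ))).add (ha.mul_const (sin θ ^ 2))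
    exact this
  have h3 : HasDerivAt (fun s => -(1 / 2) * log 4 + 1 / 2 * log (4 * a s * c s - b s ^ 2) - 3 / 2 * log (qt (c s) (-b s) (a s) θ))
      (1 / 2 * ((4 * (a' * c s + a s * c') - 2 * b s * b') / (4 * a s * c s - b s ^ 2)) - 3 / 2 * (qt c' (-b') a' θ / qt (c s) (-b s) (a s) θ)) s :=
    ((((h1.log hD.ne').const_mul (1 / 2)).const_add (-(1 / 2) * log 4)).sub ((h2.log hg.ne').const_mul (3 / 2)))
  unfold vel
  refine HasDerivAt.deriv (h3.congr_of_eventuallyEq ?_)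
  have e1 : ∀ᶠ s' in 𝓝 s, 0 < a s' := ha.continuousAt.eventually_mem (isOpen_Ioi.mem_nhds h0)
  have e2 : ∀ᶠ s' in 𝓝 s, 0 < 4 * a s' * c s' - b s' ^ 2 := h1.continuousAt.eventually_mem (isOpen_Ioi.mem_nhds hD)
  filter_upwards [e1, e2] with s' h4 h5
  exact (rho_He h4 (by linarith) θ).2

/-- a curve of forms is generic where its position and its velocity are independent -/
theorem forms_Mo {a b c : ℝ → ℝ} {a' b' c' : ℝ} {s : ℝ} (ha : HasDerivAt a a' s) (hb : HasDerivAt b b' s) (hc : HasDerivAt c c' s)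
    (h0 : 0 < a s) (hd : b s ^ 2 < 4 * a s * c s) (hi : ¬(a s * b' = a' * b s ∧ a s * c' = a' * c s)) : Mo (fun s => He (a s) (b s) (c s)) s := by
  have hc0 := pd_c h0 hd
  have hg : ∀ θ, 0 < qt (c s) (-b s) (a s) θ := qt_pos hc0 (by nlinarith)
  obtain ⟨K, hK⟩ : ∃ K, K = 1 / 2 * ((4 * (a' * c s + a s * c') - 2 * b s * b') / (4 * a s * c s - b s ^ 2)) := ⟨_, rfl⟩
  have e1 : vel (fun s => He (a s) (b s) (c s)) s = fun θ => K - 3 / 2 * (qt c' (-b') a' θ / qt (c s) (-b s) (a s) θ) := by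
    funext θ
    rw [forms_vel ha hb hc h0 hd, hK]
  obtain ⟨w0, hw0⟩ : ∃ w, w = -b' * c s - c' * -b s := ⟨_, rfl⟩
  obtain ⟨w1, hw1⟩ : ∃ w, w = 2 * (a' * c s - c' * a s) := ⟨_, rfl⟩
  obtain ⟨w2, hw2⟩ : ∃ w, w = a' * -b s - -b' * a s := ⟨_, rfl⟩
  have hW : ∀ θ, qt' c' (-b') a' θ * qt (c s) (-b s) (a s) θ - qt c' (-b') a' θ * qt' (c s) (-b s) (a s) θ = qt w0 w1 w2 θ := by
    intro θ
    rw [wr_id, hw0, hw1, hw2]
  have h1 : ∀ θ, HasDerivAt (fun θ => K - 3 / 2 * (qt c' (-b') a' θ / qt (c s) (-b s) (a s) θ)) (-(3 / 2) * (qt w0 w1 w2 θ / qt (c s) (-b s) (a s) θ ^ 2)) θ := by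
    intro θ
    have h2 := (((qt_hd c' (-b') a' θ).div (qt_hd (c s) (-b s) (a s) θ) (hg θ).ne').const_mul (3 / 2)).const_sub K
    refine h2.congr_deriv ?_
    rw [hW]
    ring
  have e2 : deriv (vel (fun s => He (a s) (b s) (c s)) s) = fun θ => -(3 / 2) * (qt w0 w1 w2 θ / qt (c s) (-b s) (a s) θ ^ 2) := by
    rw [e1]
    funext θ
    exact (h1 θ).deriv
  intro θ
  by_contra hcon
  push Not at hcon
  obtain ⟨h2, h3⟩ := hcon
  have hgθ := hg θ
  have h4 : qt w0 w1 w2 θ = 0 := by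
    rw [e2] at h2
    have h5 : qt w0 w1 w2 θ / qt (c s) (-b s) (a s) θ ^ 2 = 0 := by
      simp only at h2
      linarith
    rcases div_eq_zero_iff.1 h5 with h | h
    · exact h
    · exact absurd h (by positivity)
  have h5 : qt' w0 w1 w2 θ = 0 := by
    rw [e2] at h3
    have h6 := ((qt_hd w0 w1 w2 θ).div ((qt_hd (c s) (-b s) (a s) θ).pow 2) (pow_ne_zero 2 hgθ.ne')).const_mul (-(3 / 2))
    have h7 : deriv (fun θ => -(3 / 2) * (qt w0 w1 w2 θ / qt (c s) (-b s) (a s) θ ^ 2)) θ = _ := h6.deriv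
    rw [h7, h4] at h3
    simp only [Pi.pow_apply, zero_mul, sub_zero] at h3
    have h8 : qt' w0 w1 w2 θ * qt (c s) (-b s) (a s) θ ^ 2 / (qt (c s) (-b s) (a s) θ ^ 2) ^ 2 = 0 := by linarith
    rcases div_eq_zero_iff.1 h8 with h | h
    · rcases mul_eq_zero.1 h with h | h
      · exact h
      · exact absurd h (by positivity)
    · exact absurd h (by positivity)
  rw [hw0, hw1, hw2] at h4 h5
  obtain ⟨h6, h7⟩ := wr_simple hc0 (by nlinarith) h4 h5
  apply hi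
  have h8 : c s * (a s * b' - a' * b s) = 0 := by linear_combination -(a s) * h6 - b s * h7
  have h9 : a s * b' - a' * b s = 0 := by
    rcases mul_eq_zero.1 h8 with h | h
    · exact absurd h hc0.ne'
    · exact h
  constructor
  · linarith
  · linarith

/-- **curves of positive definite quadratic forms** -/
theorem forms_main (hG : MainG) {I : Set ℝ} (hI : IsOpen I) {a b c : ℝ → ℝ} (ha : ContDiffOn ℝ 7 a I) (hb : ContDiffOn ℝ 7 b I) (hc : ContDiffOn ℝ 7 c I) :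
    ∀ᵐ s : ℝ, s ∈ I → 0 < a s → b s ^ 2 < 4 * a s * c s → ¬(a s * deriv b s = deriv a s * b s ∧ a s * deriv c s = deriv a s * c s) →
      ∀ ε : ℝ, 0 < ε → ∃ C : ℝ, ∀ R : ℝ, 1 ≤ R → ∀ v : ℝ × ℝ,
        |(cQ (a s) (b s) (c s) v R : ℝ) - 2 * π / √(4 * a s * c s - b s ^ 2) * R ^ 2| ≤ C * R ^ (5 / 9 + ε) := by
  obtain ⟨J, hJ⟩ : ∃ J : Set ℝ, J = I ∩ {s | 0 < a s ∧ 0 < 4 * a s * c s - b s ^ 2} := ⟨_, rfl⟩
  have hJo : IsOpen J := by
    have h1 : ContinuousOn (fun s => (a s, 4 * a s * c s - b s ^ 2)) I :=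
      ha.continuousOn.prodMk (((continuousOn_const.mul ha.continuousOn).mul hc.continuousOn).sub (hb.continuousOn.pow 2))
    have h2 := h1.isOpen_inter_preimage hI (isOpen_Ioi.prod isOpen_Ioi) (t := Ioi (0 : ℝ) ×ˢ Ioi (0 : ℝ))
    rw [hJ]
    exact h2
  have hsm : ContDiffOn ℝ 7 (fun q : ℝ × ℝ => He (a q.1) (b q.1) (c q.1) q.2) (J ×ˢ univ) := by
    have hsub : MapsTo Prod.fst (J ×ˢ (univ : Set ℝ)) I := by
      rintro ⟨s, θ⟩ ⟨h1, -⟩
      rw [hJ] at h1
      exact h1.1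
    have a1 : ContDiffOn ℝ 7 (fun q : ℝ × ℝ => a q.1) (J ×ˢ univ) := ha.comp contDiff_fst.contDiffOn hsub
    have b1 : ContDiffOn ℝ 7 (fun q : ℝ × ℝ => b q.1) (J ×ˢ univ) := hb.comp contDiff_fst.contDiffOn hsub
    have c1 : ContDiffOn ℝ 7 (fun q : ℝ × ℝ => c q.1) (J ×ˢ univ) := hc.comp contDiff_fst.contDiffOn hsub
    have k1 : ContDiffOn ℝ 7 (fun q : ℝ × ℝ => cos q.2) (J ×ˢ univ) := (contDiff_cos.comp contDiff_snd).contDiffOn
    have k2 : ContDiffOn ℝ 7 (fun q : ℝ × ℝ => sin q.2) (J ×ˢ univ) := (contDiff_sin.comp contDiff_snd).contDiffOn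
    have hD : ContDiffOn ℝ 7 (fun q : ℝ × ℝ => 4 * a q.1 * c q.1 - b q.1 ^ 2) (J ×ˢ univ) :=
      ((contDiffOn_const.mul a1).mul c1).sub (b1.pow 2)
    have hne : ∀ q ∈ J ×ˢ (univ : Set ℝ), 0 < a q.1 ∧ 0 < 4 * a q.1 * c q.1 - b q.1 ^ 2 := by
      rintro ⟨s, θ⟩ ⟨h1, -⟩
      rw [hJ] at h1
      exact h1.2
    unfold He qt
    refine ContDiffOn.sqrt ?_ ?_
    · refine ((((contDiffOn_const.mul c1).div hD fun q hq => (hne q hq).2.ne').mul (k1.pow 2)).add
        ((((contDiffOn_const.mul b1).neg).div hD fun q hq => (hne q hq).2.ne').mul (k1.mul k2))).add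
        (((contDiffOn_const.mul a1).div hD fun q hq => (hne q hq).2.ne').mul (k2.pow 2))
    · intro q hq
      obtain ⟨h1, h2⟩ := hne q hq
      have h3 := pd_c h1 (show b q.1 ^ 2 < 4 * a q.1 * c q.1 by linarith)
      have h4 := qt_pos (A := 4 * c q.1 / (4 * a q.1 * c q.1 - b q.1 ^ 2)) (B := -(4 * b q.1) / (4 * a q.1 * c q.1 - b q.1 ^ 2))
        (C := 4 * a q.1 / (4 * a q.1 * c q.1 - b q.1 ^ 2)) (by positivity) (by
          have e : 4 * (4 * c q.1 / (4 * a q.1 * c q.1 - b q.1 ^ 2)) * (4 * a q.1 / (4 * a q.1 * c q.1 - b q.1 ^ 2)) -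
              (-(4 * b q.1) / (4 * a q.1 * c q.1 - b q.1 ^ 2)) ^ 2 = 16 / (4 * a q.1 * c q.1 - b q.1 ^ 2) := by
            field_simp
            ring
          have h5 : 0 < 16 / (4 * a q.1 * c q.1 - b q.1 ^ 2) := by positivity
          linarith) q.2
      exact h4.ne'
  have hper : ∀ s ∈ J, Function.Periodic (He (a s) (b s) (c s)) (2 * π) := by
    intro s _ θ
    unfold He qt
    rw [cos_add_two_pi, sin_add_two_pi]
  have h := mainL hG hJo (H := fun s => He (a s) (b s) (c s)) hsm hper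
  filter_upwards [h] with s hs hsI h0 hd hi ε hε
  have hsJ : s ∈ J := by
    rw [hJ]
    exact ⟨hsI, h0, by linarith⟩
  have da : HasDerivAt a (deriv a s) s := ((ha.contDiffAt (hI.mem_nhds hsI)).differentiableAt (by norm_num)).hasDerivAt
  have db : HasDerivAt b (deriv b s) s := ((hb.contDiffAt (hI.mem_nhds hsI)).differentiableAt (by norm_num)).hasDerivAt
  have dc : HasDerivAt c (deriv c s) s := ((hc.contDiffAt (hI.mem_nhds hsI)).differentiableAt (by norm_num)).hasDerivAt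
  obtain ⟨C, hC⟩ := hs hsJ (fun θ => (rho_He h0 hd θ).1) (forms_Mo da db dc h0 hd hi) ε hε
  refine ⟨C, fun R hR v => ?_⟩
  obtain ⟨h1, h2⟩ := He_cnt h0 hd (show 0 ≤ R by linarith) v
  have h3 := hC R hR v
  rwa [h1, h2] at h3

end Pool.Agent.Helper75.GCF
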