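import Pool.Agent.Helper75.GC.FMo

/-!
# Project GM: corollaries: stretches of lattices, rotations and parallel curves of an oval
-/

open MeasureTheory Real Set Filter Topology

set_option autoImplicit false

namespace Pool.Agent.Helper75.GCF

open Pool.Agent.Helper22.AE
open Pool.Agent.Helper22.AC (cntc)

/-- every lattice, almost every stretch -/
theorem stretch_main (hG : MainG) (u v : ℝ × ℝ) (huv : u.1 * v.2 - u.2 * v.1 ≠ 0) : ∀ᵐ α : ℝ, 0 < α → ∀ ε : ℝ, 0 < ε → ∃ C : ℝ, ∀ R : ℝ, 1 ≤ R → ∀ c : ℝ × ℝ,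
      |(Nat.card {k : ℤ × ℤ // ((k.1 : ℝ) * u.1 + k.2 * v.1 - c.1) ^ 2 + α * ((k.1 : ℝ) * u.2 + k.2 * v.2 - c.2) ^ 2 ≤ R ^ 2} : ℝ) -
        π * R ^ 2 / (√α * |u.1 * v.2 - u.2 * v.1|)| ≤ C * R ^ (5 / 9 + ε) := by
  obtain ⟨a, ha⟩ : ∃ a : ℝ → ℝ, a = fun α => u.1 ^ 2 + α * u.2 ^ 2 := ⟨_, rfl⟩
  obtain ⟨b, hb⟩ : ∃ b : ℝ → ℝ, b = fun α => 2 * (u.1 * v.1) + α * (2 * (u.2 * v.2)) := ⟨_, rfl⟩
  obtain ⟨c, hc⟩ : ∃ c : ℝ → ℝ, c = fun α => v.1 ^ 2 + α * v.2 ^ 2 := ⟨_, rfl⟩
  have sa : ContDiff ℝ 7 a := by rw [ha]; fun_prop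
  have sb : ContDiff ℝ 7 b := by rw [hb]; fun_prop
  have sc : ContDiff ℝ 7 c := by rw [hc]; fun_prop
  have lin : ∀ p q α : ℝ, HasDerivAt (fun α : ℝ => p + α * q) q α := by
    intro p q α
    have := ((hasDerivAt_id α).mul_const q).const_add p
    simpa using this
  have da : ∀ α, deriv a α = u.2 ^ 2 := fun α => by rw [ha]; exact (lin _ _ α).deriv
  have db : ∀ α, deriv b α = 2 * (u.2 * v.2) := fun α => by rw [hb]; exact (lin _ _ α).deriv
  have dc : ∀ α, deriv c α = v.2 ^ 2 := fun α => by rw [hc]; exact (lin _ _ α).deriv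
  filter_upwards [forms_main hG isOpen_univ sa.contDiffOn sb.contDiffOn sc.contDiffOn] with α h h0 ε hε
  obtain ⟨d, hd⟩ : ∃ d, d = u.1 * v.2 - u.2 * v.1 := ⟨_, rfl⟩
  rw [← hd] at huv ⊢
  have hd2 : 0 < d ^ 2 := by positivity
  have e1 : 4 * a α * c α - b α ^ 2 = 4 * α * d ^ 2 := by
    rw [ha, hb, hc, hd]
    ring
  have h1 : 0 < a α := by
    have h2 : 0 ≤ a α := by
      rw [ha]
      positivity
    rcases h2.lt_or_eq with h3 | h3
    · exact h3
    · exfalso
      rw [← h3] at e1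
      have h4 : 0 < 4 * α * d ^ 2 := by positivity
      nlinarith [sq_nonneg (b α)]
  have h2 : b α ^ 2 < 4 * a α * c α := by
    have h4 : 0 < 4 * α * d ^ 2 := by positivity
    linarith
  have h3 : ¬(a α * deriv b α = deriv a α * b α ∧ a α * deriv c α = deriv a α * c α) := by
    rintro ⟨h4, h5⟩
    rw [da, db, ha, hb] at h4
    rw [da, dc, ha, hc] at h5
    simp only at h4 h5
    have h6 : u.1 * u.2 * d = 0 := by
      rw [hd]
      linear_combination h4 / 2
    have h7 : (u.1 * v.2 + u.2 * v.1) * d = 0 := by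
      rw [hd]
      linear_combination h5
    have h8 : u.1 * u.2 = 0 := (mul_eq_zero.1 h6).resolve_right huv
    have h9 : u.1 * v.2 + u.2 * v.1 = 0 := (mul_eq_zero.1 h7).resolve_right huv
    apply huv
    rw [hd]
    rcases mul_eq_zero.1 h8 with h10 | h10
    · rw [h10] at h9 ⊢
      linarith
    · rw [h10] at h9 ⊢
      linarith
  obtain ⟨C, hC⟩ := h (mem_univ α) h1 h2 h3 ε hε
  refine ⟨C, fun R hR p => ?_⟩
  obtain ⟨x, hx⟩ : ∃ x : ℝ × ℝ, x = ((v.2 * p.1 - v.1 * p.2) / d, (u.1 * p.2 - u.2 * p.1) / d) := ⟨_, rfl⟩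
  have hx1 : x.1 * u.1 + x.2 * v.1 = p.1 := by
    have g1 : x.1 * u.1 + x.2 * v.1 = p.1 * (u.1 * v.2 - u.2 * v.1) / d := by
      rw [hx]
      simp only
      ring
    rw [g1, ← hd, mul_div_cancel_right₀ _ huv]
  have hx2 : x.1 * u.2 + x.2 * v.2 = p.2 := by
    have g1 : x.1 * u.2 + x.2 * v.2 = p.2 * (u.1 * v.2 - u.2 * v.1) / d := by
      rw [hx]
      simp only
      ring
    rw [g1, ← hd, mul_div_cancel_right₀ _ huv]
  have h4 := hC R hR x
  have e2 : (cQ (a α) (b α) (c α) x R : ℝ) =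
      (Nat.card {k : ℤ × ℤ // ((k.1 : ℝ) * u.1 + k.2 * v.1 - p.1) ^ 2 + α * ((k.1 : ℝ) * u.2 + k.2 * v.2 - p.2) ^ 2 ≤ R ^ 2} : ℝ) := by
    unfold cQ
    congr 1
    refine Nat.card_congr (Equiv.subtypeEquivRight fun k => ?_)
    have e3 : a α * ((k.1 : ℝ) - x.1) ^ 2 + b α * ((k.1 : ℝ) - x.1) * ((k.2 : ℝ) - x.2) + c α * ((k.2 : ℝ) - x.2) ^ 2 =
        ((k.1 : ℝ) * u.1 + k.2 * v.1 - p.1) ^ 2 + α * ((k.1 : ℝ) * u.2 + k.2 * v.2 - p.2) ^ 2 := by
      rw [← hx1, ← hx2, ha, hb, hc]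
      ring
    rw [e3]
  have e4 : 2 * π / √(4 * a α * c α - b α ^ 2) * R ^ 2 = π * R ^ 2 / (√α * |d|) := by
    have e5 : √(4 * a α * c α - b α ^ 2) = 2 * (√α * |d|) := by
      rw [e1, show 4 * α * d ^ 2 = α * (2 * d) ^ 2 by ring, sqrt_mul h0.le, sqrt_sq_eq_abs, abs_mul, abs_two]
      ring
    have h5 : 0 < √α := sqrt_pos.2 h0
    have h6 : 0 < |d| := abs_pos.2 huv
    rw [e5]
    field_simp
  rwa [e2, e4] at h4

/-- rotations of an oval -/
theorem rot_main {P : (ℝ → ℝ) → Prop} (hG : ∀ H : ℝ → ℝ → ℝ, (ContDiff ℝ 7 fun q : ℝ × ℝ => H q.1 q.2) → (∀ s, Function.Periodic (H s) (2 * π)) →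
    ∀ᵐ s : ℝ, (∀ θ, 0 < rho (H s) θ) → Mo H s → P (H s)) {G : ℝ → ℝ} (h : ContDiff ℝ 7 G) (hp : Function.Periodic G (2 * π)) (hr : ∀ t, 0 < rho G t)
    (hm : ∀ t, deriv (deriv fun t => log (rho G t)) t ≠ 0 ∨ deriv (deriv (deriv fun t => log (rho G t))) t ≠ 0) : ∀ᵐ s : ℝ, P (fun t => G (t - s)) := by
  have h1 := hG (fun s t => G (t - s)) (h.comp (contDiff_snd.sub contDiff_fst)) fun s t => by
    simp only
    rw [show t + 2 * π - s = t - s + 2 * π by ring]
    exact hp _
  have hd : ∀ (f : ℝ → ℝ) (s : ℝ), deriv (fun t => f (t - s)) = fun t => deriv f (t - s) := by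
    intro f s
    funext t
    exact deriv_comp_sub_const f s t
  have e1 : ∀ s, rho (fun t => G (t - s)) = fun t => rho G (t - s) := by
    intro s
    funext t
    unfold rho
    rw [hd, hd]
  have e2 : ∀ s, vel (fun s t => G (t - s)) s = fun t => -deriv (fun t => log (rho G t)) (t - s) := by
    intro s
    funext t
    unfold vel
    simp only [e1]
    exact deriv_comp_const_sub (fun t => log (rho G t)) t s
  filter_upwards [h1] with s hs
  refine hs (fun t => ?_) fun t => ?_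
  · rw [e1]
    exact hr _
  · have e3 : deriv (fun t => -deriv (fun t => log (rho G t)) (t - s)) = fun t => -deriv (deriv fun t => log (rho G t)) (t - s) := by
      funext t
      rw [deriv.fun_neg, deriv_comp_sub_const (deriv fun t => log (rho G t)) s t]
    have e4 : deriv (fun t => -deriv (deriv fun t => log (rho G t)) (t - s)) = fun t => -deriv (deriv (deriv fun t => log (rho G t))) (t - s) := by
      funext t
      rw [deriv.fun_neg, deriv_comp_sub_const (deriv (deriv fun t => log (rho G t))) s t]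
    rw [e2, e3, e4]
    simp only [neg_ne_zero]
    exact hm _

/-- lines in the space of support functions: the Minkowski sums `D + s K` -/
theorem line_main {P : (ℝ → ℝ) → Prop} (hG : ∀ H : ℝ → ℝ → ℝ, (ContDiff ℝ 7 fun q : ℝ × ℝ => H q.1 q.2) → (∀ s, Function.Periodic (H s) (2 * π)) →
    ∀ᵐ s : ℝ, (∀ θ, 0 < rho (H s) θ) → Mo H s → P (H s)) {G K : ℝ → ℝ} (h : ContDiff ℝ 7 G) (hK : ContDiff ℝ 7 K) (hp : Function.Periodic G (2 * π))
    (hpK : Function.Periodic K (2 * π)) (hm : ∀ t, deriv (rho G) t * rho K t ≠ rho G t * deriv (rho K) t ∨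
      deriv (deriv (rho G)) t * rho K t ≠ rho G t * deriv (deriv (rho K)) t) :
    ∀ᵐ s : ℝ, (∀ t, 0 < rho G t + s * rho K t) → P (fun t => G t + s * K t) := by
  have h1 := hG (fun s t => G t + s * K t) ((h.comp contDiff_snd).add (contDiff_fst.mul (hK.comp contDiff_snd))) fun s t => by
    simp only
    rw [hp t, hpK t]
  have c0 : ∀ {G : ℝ → ℝ}, ContDiff ℝ 7 G → ContDiff ℝ 5 (rho G) := by
    intro G h
    unfold rho
    exact (h.of_le (by norm_num)).add (h.iterate_deriv' 5 2)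
  have g1 : ∀ {G : ℝ → ℝ}, ContDiff ℝ 7 G → (∀ t, HasDerivAt G (deriv G t) t) ∧ ∀ t, HasDerivAt (deriv G) (deriv (deriv G) t) t := fun {G} h =>
    ⟨fun t => ((h.differentiable (by norm_num)) t).hasDerivAt, fun t => (((h.iterate_deriv' 6 1).differentiable (by norm_num)) t).hasDerivAt⟩
  have g2 : ∀ {G : ℝ → ℝ}, ContDiff ℝ 7 G → (∀ t, HasDerivAt (rho G) (deriv (rho G) t) t) ∧ ∀ t, HasDerivAt (deriv (rho G)) (deriv (deriv (rho G)) t) t :=
    fun {G} h => ⟨fun t => (((c0 h).differentiable (by norm_num)) t).hasDerivAt, fun t => ((((c0 h).iterate_deriv' 4 1).differentiable (by norm_num)) t).hasDerivAt⟩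
  have e1 : ∀ s, rho (fun t => G t + s * K t) = fun t => rho G t + s * rho K t := by
    intro s
    funext t
    unfold rho
    have e2 : deriv (fun t => G t + s * K t) = fun t => deriv G t + s * deriv K t := by
      funext t
      exact (((g1 h).1 t).add (((g1 hK).1 t).const_mul s)).deriv
    have e3 : deriv (fun t => deriv G t + s * deriv K t) t = deriv (deriv G) t + s * deriv (deriv K) t :=
      (((g1 h).2 t).add (((g1 hK).2 t).const_mul s)).deriv
    rw [e2, e3]
    ring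
  filter_upwards [h1] with s hs hpos
  have e2 : vel (fun s t => G t + s * K t) s = fun t => rho K t / (rho G t + s * rho K t) := by
    funext t
    unfold vel
    simp only [e1]
    have h2 : HasDerivAt (fun s => rho G t + s * rho K t) (1 * rho K t) s := ((hasDerivAt_id s).mul_const (rho K t)).const_add _
    have h3 := h2.log (hpos t).ne'
    rw [h3.deriv, one_mul]
  have hq : ∀ t, HasDerivAt (fun t => rho G t + s * rho K t) (deriv (rho G) t + s * deriv (rho K) t) t :=
    fun t => ((g2 h).1 t).add (((g2 hK).1 t).const_mul s)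
  have e3 : deriv (fun t => rho K t / (rho G t + s * rho K t)) =
      fun t => (rho G t * deriv (rho K) t - deriv (rho G) t * rho K t) / (rho G t + s * rho K t) ^ 2 := by
    funext t
    have h2 := (((g2 hK).1 t).div (hq t) (hpos t).ne').deriv
    refine Eq.trans h2 ?_
    congr 1
    ring
  refine hs (fun t => ?_) fun t => ?_
  · rw [e1]
    exact hpos t
  · rw [e2, e3]
    by_contra hcon
    push Not at hcon
    obtain ⟨h2, h3⟩ := hcon
    have hp2 := pow_pos (hpos t) 2
    have h4 : rho G t * deriv (rho K) t - deriv (rho G) t * rho K t = 0 := by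
      rcases div_eq_zero_iff.1 h2 with h | h
      · exact h
      · exact absurd h hp2.ne'
    have h8 : HasDerivAt (fun t => rho G t * deriv (rho K) t - deriv (rho G) t * rho K t)
        (rho G t * deriv (deriv (rho K)) t - deriv (deriv (rho G)) t * rho K t) t := by
      refine ((((g2 h).1 t).mul ((g2 hK).2 t)).sub (((g2 h).2 t).mul ((g2 hK).1 t))).congr_deriv ?_
      ring
    have h5 := h8.div ((hq t).pow 2) hp2.ne'
    have h6 : deriv (fun t => (rho G t * deriv (rho K) t - deriv (rho G) t * rho K t) / (rho G t + s * rho K t) ^ 2) t = _ := h5.deriv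
    rw [h6] at h3
    simp only [Pi.pow_apply, h4, zero_mul, sub_zero] at h3
    have h7 : rho G t * deriv (deriv (rho K)) t - deriv (deriv (rho G)) t * rho K t = 0 := by
      rcases div_eq_zero_iff.1 h3 with h | h
      · rcases mul_eq_zero.1 h with h | h
        · exact h
        · exact absurd h hp2.ne'
      · exact absurd h (by positivity)
    rcases hm t with h | h
    · exact h (by linarith)
    · exact h (by linarith)

end Pool.Agent.Helper75.GCF
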