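import Pool.Agent.Helper75.GC.Sup

/-!
# Project GC: the second derivative of the phase in the slope
-/

open Real Set Filter Topology

set_option autoImplicit false

namespace Pool.Agent.Helper75.GCF

open Pool.Agent.Helper22.AE
open Pool.Agent.Helper22.AC (ga)

theorem slope1 {g g1 : ℝ → ℝ} (h : ∀ θ, HasDerivAt g (g1 θ) θ) (φ t : ℝ) :
    HasDerivAt (fun t => √(1 + t ^ 2) * g (arctan t + φ)) ((t * g (arctan t + φ) + g1 (arctan t + φ)) / √(1 + t ^ 2)) t := by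
  have h0 : 0 < 1 + t ^ 2 := by positivity
  have hs : 0 < √(1 + t ^ 2) := sqrt_pos.2 h0
  have h1 : HasDerivAt (fun t : ℝ => 1 + t ^ 2) (2 * t) t := by
    have := (hasDerivAt_pow 2 t).const_add 1
    simpa using this
  have h2 := h1.sqrt h0.ne'
  have h3 : HasDerivAt (fun t => arctan t + φ) (1 / (1 + t ^ 2)) t := (hasDerivAt_arctan t).add_const φ
  have h4 := (h (arctan t + φ)).comp t h3
  refine (h2.mul h4).congr_deriv ?_
  have e : √(1 + t ^ 2) ^ 2 = 1 + t ^ 2 := sq_sqrt h0.le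
  simp only [Function.comp_apply]
  field_simp
  rw [e]
  field_simp

theorem slope2 {g g1 g2 : ℝ → ℝ} (h : ∀ θ, HasDerivAt g (g1 θ) θ) (h' : ∀ θ, HasDerivAt g1 (g2 θ) θ) (φ t : ℝ) :
    HasDerivAt (fun t => (t * g (arctan t + φ) + g1 (arctan t + φ)) / √(1 + t ^ 2)) ((g (arctan t + φ) + g2 (arctan t + φ)) / √(1 + t ^ 2) ^ 3) t := by
  have h0 : 0 < 1 + t ^ 2 := by positivity
  have hs : 0 < √(1 + t ^ 2) := sqrt_pos.2 h0
  have h1 : HasDerivAt (fun t : ℝ => 1 + t ^ 2) (2 * t) t := by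
    have := (hasDerivAt_pow 2 t).const_add 1
    simpa using this
  have h2 := h1.sqrt h0.ne'
  have h3 : HasDerivAt (fun t => arctan t + φ) (1 / (1 + t ^ 2)) t := (hasDerivAt_arctan t).add_const φ
  have h4 := (h (arctan t + φ)).comp t h3
  have h5 := (h' (arctan t + φ)).comp t h3
  refine ((((hasDerivAt_id t).mul h4).add h5).div h2 hs.ne').congr_deriv ?_
  have e : √(1 + t ^ 2) ^ 2 = 1 + t ^ 2 := sq_sqrt h0.le
  simp only [Function.comp_apply, id, Pi.mul_apply, Pi.add_apply]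
  field_simp
  rw [e]
  field_simp
  ring

theorem deriv_per {γ : ℝ → ℝ} {T : ℝ} (h : Function.Periodic γ T) : Function.Periodic (deriv γ) T := by
  intro y
  rw [← deriv_comp_add_const]
  congr 1
  funext z
  exact h z

/-- the radius of curvature of `ga H α` -/
theorem ga_two {H : ℝ → ℝ} (hH : ContDiff ℝ 4 H) (α : ℝ) :
    ∃ g1 g2 : ℝ → ℝ, (∀ θ, HasDerivAt (ga H α) (g1 θ) θ) ∧ (∀ θ, HasDerivAt g1 (g2 θ) θ) ∧ ∀ θ, ga H α θ + g2 θ = ga (rho H) α θ := by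
  have h0 : ∀ θ, HasDerivAt H (deriv H θ) θ := fun θ => ((hH.differentiable (by norm_num)) θ).hasDerivAt
  have c1 : ContDiff ℝ 3 (deriv H) := hH.iterate_deriv' 3 1
  have h1 : ∀ θ, HasDerivAt (deriv H) (deriv (deriv H) θ) θ := fun θ => ((c1.differentiable (by norm_num)) θ).hasDerivAt
  have c2 : ContDiff ℝ 2 (deriv (deriv H)) := c1.iterate_deriv' 2 1
  have h2 : ∀ θ, HasDerivAt (deriv (deriv H)) (deriv (deriv (deriv H)) θ) θ := fun θ => ((c2.differentiable (by norm_num)) θ).hasDerivAt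
  have hs : ∀ (f : ℝ → ℝ) (f' : ℝ → ℝ), (∀ θ, HasDerivAt f (f' θ) θ) → ∀ θ, HasDerivAt (fun θ => f (θ + α)) (f' (θ + α)) θ :=
    fun f f' hf θ => (hf (θ + α)).comp_add_const θ α
  refine ⟨fun θ => deriv H (θ + α) * cos α - deriv (deriv H) (θ + α) * sin α, fun θ => deriv (deriv H) (θ + α) * cos α - deriv (deriv (deriv H)) (θ + α) * sin α,
    fun θ => ((hs _ _ h0 θ).mul_const _).sub ((hs _ _ h1 θ).mul_const _), fun θ => ((hs _ _ h1 θ).mul_const _).sub ((hs _ _ h2 θ).mul_const _), fun θ => ?_⟩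
  have e : deriv (rho H) (θ + α) = deriv H (θ + α) + deriv (deriv (deriv H)) (θ + α) := by
    exact ((h0 (θ + α)).add (h2 (θ + α))).deriv
  unfold ga
  rw [e]
  unfold rho
  ring

theorem Qf_t {H : ℝ → ℝ → ℝ} (h : ContDiff ℝ ((7 : ℕ) : ℕ∞) fun q : ℝ × ℝ => H q.1 q.2) (φ : ℝ) (z : ℝ × ℝ × ℝ) :
    Dt (Dt (Qf H φ)) z = ga (rho (H z.2.1)) z.1 (arctan z.2.2 + φ) / √(1 + z.2.2 ^ 2) ^ 3 := by
  obtain ⟨α, s, t⟩ := z
  have hs : ContDiff ℝ 4 (H s) := (h.of_le (by norm_cast)).comp (contDiff_const.prodMk contDiff_id)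
  obtain ⟨g1, g2, h1, h2, h3⟩ := ga_two hs α
  have c1 : ContDiff ℝ ((6 : ℕ) : ℕ∞) (Qf H φ) := Qf_sm h φ
  have c2 : ContDiff ℝ ((5 : ℕ) : ℕ∞) (Dt (Qf H φ)) := Dt_sm c1
  have e1 : ∀ t, Dt (Qf H φ) (α, s, t) = (t * ga (H s) α (arctan t + φ) + g1 (arctan t + φ)) / √(1 + t ^ 2) := by
    intro t
    exact (Dt_hd (z := (α, s, t)) ((c1.differentiable (by norm_num)) _)).unique (slope1 h1 φ t)
  have e2 := (Dt_hd (z := (α, s, t)) ((c2.differentiable (by norm_num)) _))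
  simp only [e1] at e2
  have e3 := e2.unique (slope2 h1 h2 φ t)
  simp only
  rw [e3, h3]

end Pool.Agent.Helper75.GCF
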