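import Pool.Agent.Helper75.GC.Morse
import Pool.Agent.Helper60.GM.Defs
import Pool.Agent.Helper22.OV.Shift

/-!
# Project GM: the family of phases of a family of support functions
-/

open Real Set Filter Topology

set_option autoImplicit false

namespace Pool.Agent.Helper75.GCF

open Pool.Agent.Helper22.AE
open Pool.Agent.Helper22.AC (ga)
open Pool.Agent.Helper60.GM (Fam)

/-- the box -/
def Bx (s₀ δ T : ℝ) : Set (ℝ × ℝ × ℝ) := {z | |z.1| ≤ δ ∧ |z.2.1 - s₀| ≤ δ ∧ |z.2.2| ≤ T}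

theorem Bx_prod (s₀ δ T : ℝ) : Bx s₀ δ T = Icc (-δ) δ ×ˢ (Icc (s₀ - δ) (s₀ + δ) ×ˢ Icc (-T) T) := by
  ext z
  simp only [Bx, Set.mem_ofPred_eq, mem_prod, mem_Icc, abs_le]
  constructor
  · rintro ⟨h1, h2, h3⟩
    exact ⟨h1, ⟨by linarith, by linarith⟩, h3⟩
  · rintro ⟨h1, h2, h3⟩
    exact ⟨h1, ⟨by linarith, by linarith⟩, h3⟩

theorem Bx_compact (s₀ δ T : ℝ) : IsCompact (Bx s₀ δ T) := by
  rw [Bx_prod]
  exact isCompact_Icc.prod (isCompact_Icc.prod isCompact_Icc)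

theorem Bx_convex (s₀ δ T : ℝ) : Convex ℝ (Bx s₀ δ T) := by
  rw [Bx_prod]
  exact (convex_Icc _ _).prod ((convex_Icc _ _).prod (convex_Icc _ _))

/-- bounds for a differentiable function on a box -/
theorem bds {s₀ δ T : ℝ} {f : ℝ × ℝ × ℝ → ℝ} (h : ∀ z ∈ Bx s₀ δ T, ContDiffAt ℝ ((1 : ℕ) : ℕ∞) f z) :
    ∃ B : ℝ, 1 ≤ B ∧ (∀ z ∈ Bx s₀ δ T, |f z| ≤ B) ∧ ∀ z ∈ Bx s₀ δ T, ∀ z' ∈ Bx s₀ δ T, |f z - f z'| ≤ B * ‖z - z'‖ := by
  have h1 : ContinuousOn f (Bx s₀ δ T) := fun z hz => (h z hz).continuousAt.continuousWithinAt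
  have h2 : ContinuousOn (fderiv ℝ f) (Bx s₀ δ T) := fun z hz =>
    (((h z hz).fderiv_right (m := 0) (by norm_num)).continuousAt).continuousWithinAt
  obtain ⟨B₁, hB₁⟩ := (Bx_compact s₀ δ T).exists_bound_of_continuousOn h1
  obtain ⟨B₂, hB₂⟩ := (Bx_compact s₀ δ T).exists_bound_of_continuousOn h2
  refine ⟨max 1 (max B₁ B₂), le_max_left _ _, fun z hz => ?_, fun z hz z' hz' => ?_⟩
  · have := hB₁ z hz
    rw [norm_eq_abs] at this
    exact this.trans ((le_max_left _ _).trans (le_max_right _ _))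
  · have h3 := (Bx_convex s₀ δ T).norm_image_sub_le_of_norm_fderiv_le (𝕜 := ℝ) (f := f) (C := max 1 (max B₁ B₂))
      (fun z hz => (h z hz).differentiableAt (by norm_num)) (fun z hz => (hB₂ z hz).trans ((le_max_right _ _).trans (le_max_right _ _))) hz' hz
    rwa [norm_eq_abs] at h3

/-- a positive lower bound -/
theorem lows {s₀ δ T : ℝ} {f : ℝ × ℝ × ℝ → ℝ} (h : ∀ z ∈ Bx s₀ δ T, ContinuousAt f z) (hf : ∀ z ∈ Bx s₀ δ T, 0 < f z) :
    ∃ B : ℝ, 1 ≤ B ∧ ∀ z ∈ Bx s₀ δ T, 1 ≤ B * f z := by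
  have h1 : ContinuousOn (fun z => (f z)⁻¹) (Bx s₀ δ T) := fun z hz => ((h z hz).inv₀ (hf z hz).ne').continuousWithinAt
  obtain ⟨B₁, hB₁⟩ := (Bx_compact s₀ δ T).exists_bound_of_continuousOn h1
  refine ⟨max 1 B₁, le_max_left _ _, fun z hz => ?_⟩
  have h2 := hB₁ z hz
  rw [norm_of_nonneg (inv_nonneg.2 (hf z hz).le)] at h2
  have h3 : (f z)⁻¹ ≤ max 1 B₁ := h2.trans (le_max_right _ _)
  have h4 := mul_le_mul_of_nonneg_right h3 (hf z hz).le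
  rwa [inv_mul_cancel₀ (hf z hz).ne'] at h4

/-- the family of phases: `s ∈ [0, 1]` corresponds to `[s₀ - δ / 2, s₀ + δ / 2]` -/
noncomputable def famF (F : ℝ × ℝ × ℝ → ℝ) (α s₀ δ : ℝ) : Fam where
  q s t := F (α, s₀ + δ * (s - 1 / 2), t)
  q1 s t := Dt F (α, s₀ + δ * (s - 1 / 2), t)
  p s t := fp F (α, s₀ + δ * (s - 1 / 2), t)
  q3 s t := f3 F (α, s₀ + δ * (s - 1 / 2), t)
  q4 s t := f4 F (α, s₀ + δ * (s - 1 / 2), t)
  ps s t := δ * Ds (fp F) (α, s₀ + δ * (s - 1 / 2), t)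
  J s t := δ * fJ F (α, s₀ + δ * (s - 1 / 2), t)
  Jt s t := δ * fJt F (α, s₀ + δ * (s - 1 / 2), t)

/-- the family of phases of the support functions `ga (H s) α`, rotated by the angle `φ` -/
noncomputable def famH (H : ℝ → ℝ → ℝ) (φ α s₀ δ : ℝ) : Fam := famF (Qf H φ) α s₀ δ

theorem Ds_scale {G : ℝ × ℝ × ℝ → ℝ} {α s₀ δ s t : ℝ} (h : DifferentiableAt ℝ G (α, s₀ + δ * (s - 1 / 2), t)) :
    HasDerivAt (fun s => G (α, s₀ + δ * (s - 1 / 2), t)) (δ * Ds G (α, s₀ + δ * (s - 1 / 2), t)) s := by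
  have h1 := Ds_hd (z := (α, s₀ + δ * (s - 1 / 2), t)) h
  simp only at h1
  have h2 : HasDerivAt (fun s : ℝ => s₀ + δ * (s - 1 / 2)) δ s := by
    have := (((hasDerivAt_id s).sub_const (1 / 2)).const_mul δ).const_add s₀
    simpa using this
  have h3 := HasDerivAt.comp (h₂ := fun s => G (α, s, t)) s h1 h2
  rw [mul_comm]
  exact h3

/-- one function -/
theorem famF_ok {F : ℝ × ℝ × ℝ → ℝ} (c0 : ContDiff ℝ ((6 : ℕ) : ℕ∞) F) {s₀ δ₀ : ℝ} (hδ₀ : 0 < δ₀) (hδ₁ : δ₀ ≤ 1)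
    (hU : ∀ z ∈ Bx s₀ (2 * δ₀) 12, 0 < fp F z ∧ (fJ F z ≠ 0 ∨ fJt F z ≠ 0)) :
    ∃ B : ℝ, 1 ≤ B ∧ ∀ α, |α| ≤ 2 * δ₀ → (famF F α s₀ δ₀).Ok B := by
  have c1 : ContDiff ℝ ((5 : ℕ) : ℕ∞) (Dt F) := Dt_sm c0
  have cp : ContDiff ℝ ((4 : ℕ) : ℕ∞) (fp F) := Dt_sm c1
  have c3 : ContDiff ℝ ((3 : ℕ) : ℕ∞) (f3 F) := Dt_sm cp
  have c4 : ContDiff ℝ ((2 : ℕ) : ℕ∞) (f4 F) := Dt_sm c3
  have cs : ContDiff ℝ ((3 : ℕ) : ℕ∞) (Ds (fp F)) := Ds_sm cp
  have cx : ∀ z ∈ Bx s₀ (2 * δ₀) 12, ContDiffAt ℝ ((3 : ℕ) : ℕ∞) (fx F) z := fun z hz => fx_at c0 (hU z hz).1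
  have cJ : ∀ z ∈ Bx s₀ (2 * δ₀) 12, ContDiffAt ℝ ((2 : ℕ) : ℕ∞) (fJ F) z := fun z hz => fJ_at c0 (hU z hz).1
  have cJt : ∀ z ∈ Bx s₀ (2 * δ₀) 12, ContDiffAt ℝ ((1 : ℕ) : ℕ∞) (fJt F) z := fun z hz => fJt_at c0 (hU z hz).1
  obtain ⟨B0, b0, b0a, -⟩ := bds (s₀ := s₀) (δ := 2 * δ₀) (T := 12) (f := F) fun z _ => (c0.of_le (by norm_cast)).contDiffAt
  obtain ⟨B1, b1, b1a, -⟩ := bds (s₀ := s₀) (δ := 2 * δ₀) (T := 12) (f := Dt F) fun z _ => (c1.of_le (by norm_cast)).contDiffAt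
  obtain ⟨B2, b2, b2a, b2b⟩ := bds (s₀ := s₀) (δ := 2 * δ₀) (T := 12) (f := fp F) fun z _ => (cp.of_le (by norm_cast)).contDiffAt
  obtain ⟨B3, b3, b3a, -⟩ := bds (s₀ := s₀) (δ := 2 * δ₀) (T := 12) (f := f3 F) fun z _ => (c3.of_le (by norm_cast)).contDiffAt
  obtain ⟨B4, b4, b4a, b4b⟩ := bds (s₀ := s₀) (δ := 2 * δ₀) (T := 12) (f := f4 F) fun z _ => (c4.of_le (by norm_cast)).contDiffAt
  obtain ⟨B5, b5, b5a, -⟩ := bds (s₀ := s₀) (δ := 2 * δ₀) (T := 12) (f := Ds (fp F)) fun z _ => (cs.of_le (by norm_cast)).contDiffAt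
  obtain ⟨B6, b6, b6a, b6b⟩ := bds (s₀ := s₀) (δ := 2 * δ₀) (T := 12) (f := fJ F) fun z hz => (cJ z hz).of_le (by norm_cast)
  obtain ⟨B7, b7, b7a, b7b⟩ := bds (s₀ := s₀) (δ := 2 * δ₀) (T := 12) (f := fJt F) fun z hz => cJt z hz
  obtain ⟨B8, b8, b8a⟩ := lows (s₀ := s₀) (δ := 2 * δ₀) (T := 12) (f := fp F) (fun z _ => cp.continuous.continuousAt) fun z hz => (hU z hz).1
  obtain ⟨B9, b9, b9a⟩ := lows (s₀ := s₀) (δ := 2 * δ₀) (T := 12) (f := fun z => |fJ F z| + |fJt F z|)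
    (fun z hz => (cJ z hz).continuousAt.abs.add (cJt z hz).continuousAt.abs) fun z hz => by
      rcases (hU z hz).2 with h | h
      · have := abs_pos.2 h
        positivity
      · have := abs_pos.2 h
        positivity
  obtain ⟨B, hB⟩ : ∃ B : ℝ, B = B0 + B1 + B2 + B3 + B4 + B5 + B6 + B7 + B8 + B9 / δ₀ := ⟨_, rfl⟩
  have hB9 : 0 ≤ B9 / δ₀ := by positivity
  have hB1 : 1 ≤ B := by linarith
  refine ⟨B, hB1, fun α hα => ?_⟩
  -- the points of the box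
  have hmem : ∀ s ∈ Icc (-1 : ℝ) 2, ∀ t : ℝ, |t| ≤ 12 → ((α, s₀ + δ₀ * (s - 1 / 2), t) : ℝ × ℝ × ℝ) ∈ Bx s₀ (2 * δ₀) 12 := by
    intro s hs t ht
    refine ⟨hα, ?_, ht⟩
    simp only
    rw [abs_le]
    constructor
    · nlinarith [hs.1]
    · nlinarith [hs.2]
  have hdist : ∀ s s' t t' : ℝ, ‖((α, s₀ + δ₀ * (s - 1 / 2), t) : ℝ × ℝ × ℝ) - (α, s₀ + δ₀ * (s' - 1 / 2), t')‖ ≤ |s - s'| + |t - t'| := by
    intro s s' t t'
    rw [Prod.mk_sub_mk, Prod.mk_sub_mk, Prod.norm_mk, Prod.norm_mk, sub_self, norm_zero]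
    have e : s₀ + δ₀ * (s - 1 / 2) - (s₀ + δ₀ * (s' - 1 / 2)) = δ₀ * (s - s') := by ring
    rw [e, norm_eq_abs, norm_eq_abs, abs_mul, abs_of_pos hδ₀]
    have h1 : δ₀ * |s - s'| ≤ |s - s'| := by nlinarith [abs_nonneg (s - s')]
    refine max_le (by positivity) (max_le ?_ ?_)
    · linarith [abs_nonneg (t - t')]
    · linarith [abs_nonneg (s - s')]
  refine ⟨hB1, ?_, ?_, ?_, ?_, ?_, ?_, ?_, ?_, ?_, ?_, ?_, ?_, ?_⟩
  · have : Continuous fun z : ℝ × ℝ => ((α, s₀ + δ₀ * (z.1 - 1 / 2), z.2) : ℝ × ℝ × ℝ) := by fun_prop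
    exact c0.continuous.comp this
  · intro s hs t ht
    exact Dt_hd (z := (α, s₀ + δ₀ * (s - 1 / 2), t)) ((c0.differentiable (by norm_num)) _)
  · intro s hs t ht
    exact Dt_hd (z := (α, s₀ + δ₀ * (s - 1 / 2), t)) ((c1.differentiable (by norm_num)) _)
  · intro s hs t ht
    exact Dt_hd (z := (α, s₀ + δ₀ * (s - 1 / 2), t)) ((cp.differentiable (by norm_num)) _)
  · intro s hs t ht
    exact Dt_hd (z := (α, s₀ + δ₀ * (s - 1 / 2), t)) ((c3.differentiable (by norm_num)) _)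
  · intro s hs t ht
    exact Ds_scale ((cp.differentiable (by norm_num)) _)
  · intro s hs t ht
    have h1 := Ds_scale (G := fx F) (α := α) (s₀ := s₀) (δ := δ₀) (s := s) (t := t) ((cx _ (hmem s hs t ht)).differentiableAt (by norm_num))
    have e : (fun s => (famF F α s₀ δ₀).x s t) = fun s => fx F (α, s₀ + δ₀ * (s - 1 / 2), t) := by
      funext s
      unfold Fam.x fx famF
      simp only
      rw [neg_div]
    rw [e]
    exact h1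
  · intro s hs t ht
    exact (Dt_hd (z := (α, s₀ + δ₀ * (s - 1 / 2), t)) ((cJ _ (hmem s hs t ht)).differentiableAt (by norm_num))).const_mul δ₀
  · intro s hs t ht
    have h1 := b8a _ (hmem s hs t ht)
    have h2 := (hU _ (hmem s hs t ht)).1
    refine h1.trans (mul_le_mul_of_nonneg_right ?_ h2.le)
    linarith
  · intro s hs t ht
    have h := hmem s hs t ht
    have hδ : ∀ y : ℝ, |δ₀ * y| ≤ |y| := by
      intro y
      rw [abs_mul, abs_of_pos hδ₀]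
      nlinarith [abs_nonneg y]
    refine ⟨?_, ?_, ?_, ?_, ?_, ?_, ?_, ?_⟩
    · have := b0a _ h
      change |F _| ≤ B
      linarith
    · have := b1a _ h
      change |Dt F _| ≤ B
      linarith
    · have := b2a _ h
      change |fp F _| ≤ B
      linarith
    · have := b3a _ h
      change |f3 F _| ≤ B
      linarith
    · have := b4a _ h
      change |f4 F _| ≤ B
      linarith
    · have := b5a _ h
      change |δ₀ * Ds (fp F) _| ≤ B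
      refine (hδ _).trans ?_
      linarith
    · have := b6a _ h
      change |δ₀ * fJ F _| ≤ B
      refine (hδ _).trans ?_
      linarith
    · have := b7a _ h
      change |δ₀ * fJt F _| ≤ B
      refine (hδ _).trans ?_
      linarith
  · intro s hs s' hs' t ht
    have h := hmem s hs t ht
    have h' := hmem s' hs' t ht
    have hd := hdist s s' t t
    rw [sub_self, abs_zero, add_zero] at hd
    constructor
    · refine (b2b _ h _ h').trans ?_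
      exact mul_le_mul (by linarith) hd (norm_nonneg _) (by linarith)
    · refine (b4b _ h _ h').trans ?_
      exact mul_le_mul (by linarith) hd (norm_nonneg _) (by linarith)
  · intro s hs s' hs' t t' ht ht'
    have h := hmem s hs t ht
    have h' := hmem s' hs' t' ht'
    have hd := hdist s s' t t'
    have hδ : ∀ y y' : ℝ, |δ₀ * y - δ₀ * y'| ≤ |y - y'| := by
      intro y y'
      rw [← mul_sub, abs_mul, abs_of_pos hδ₀]
      nlinarith [abs_nonneg (y - y')]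
    constructor
    · refine (hδ _ _).trans ((b6b _ h _ h').trans ?_)
      exact mul_le_mul (by linarith) hd (norm_nonneg _) (by linarith)
    · refine (hδ _ _).trans ((b7b _ h _ h').trans ?_)
      exact mul_le_mul (by linarith) hd (norm_nonneg _) (by linarith)
  · intro s hs t ht
    have h1 := b9a _ (hmem s hs t ht)
    change 1 ≤ B * (|δ₀ * fJ F _| + |δ₀ * fJt F _|)
    rw [abs_mul, abs_mul, abs_of_pos hδ₀, ← mul_add, ← mul_assoc]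
    refine h1.trans (mul_le_mul_of_nonneg_right ?_ (by positivity))
    have h2 : B9 / δ₀ * δ₀ ≤ B * δ₀ := mul_le_mul_of_nonneg_right (by linarith) hδ₀.le
    rwa [div_mul_cancel₀ _ hδ₀.ne'] at h2

theorem Ok_mono {F : Fam} {B B' : ℝ} (h : F.Ok B) (hB : B ≤ B') : F.Ok B' := by
  have h1 := h.B1
  refine ⟨h1.trans hB, h.cont, h.hq, h.hq1, h.hp, h.hq3, h.hps, h.hx, h.hJ, ?_, ?_, ?_, ?_, ?_⟩
  · intro s hs t ht
    have h2 := h.p_lo s hs t ht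
    have h3 : 0 < F.p s t := by
      by_contra h4
      push Not at h4
      have := mul_nonpos_of_nonneg_of_nonpos (show 0 ≤ B by linarith) h4
      linarith
    exact h2.trans (mul_le_mul_of_nonneg_right hB h3.le)
  · intro s hs t ht
    obtain ⟨b1, b2, b3, b4, b5, b6, b7, b8⟩ := h.bd s hs t ht
    exact ⟨b1.trans hB, b2.trans hB, b3.trans hB, b4.trans hB, b5.trans hB, b6.trans hB, b7.trans hB, b8.trans hB⟩
  · intro s hs s' hs' t ht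
    obtain ⟨b1, b2⟩ := h.lip s hs s' hs' t ht
    have h2 := mul_le_mul_of_nonneg_right hB (abs_nonneg (s - s'))
    exact ⟨b1.trans h2, b2.trans h2⟩
  · intro s hs s' hs' t t' ht ht'
    obtain ⟨b1, b2⟩ := h.lipJ s hs s' hs' t t' ht ht'
    have h2 := mul_le_mul_of_nonneg_right hB (show 0 ≤ |s - s'| + |t - t'| by positivity)
    exact ⟨b1.trans h2, b2.trans h2⟩
  · intro s hs t ht
    exact (h.nd s hs t ht).trans (mul_le_mul_of_nonneg_right hB (by positivity))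

/-- the family of a family of ovals, near a generic member -/
theorem famH_all {H : ℝ → ℝ → ℝ} (h : ContDiff ℝ ((7 : ℕ) : ℕ∞) fun q : ℝ × ℝ => H q.1 q.2) {s₀ : ℝ} (hr : ∀ θ, 0 < rho (H s₀) θ) (hv : Mo H s₀) (Φ : Finset ℝ) :
    ∃ δ₁ : ℝ, 0 < δ₁ ∧ ∀ δ : ℝ, 0 < δ → δ ≤ δ₁ → ∃ B : ℝ, 1 ≤ B ∧ ∀ α, |α| ≤ 2 * δ → ∀ φ ∈ Φ, (famH H φ α s₀ δ).Ok B := by
  have h1 : ∀ φ : ℝ, ∃ δ₁ : ℝ, 0 < δ₁ ∧ ∀ z ∈ Bx s₀ δ₁ 12, 0 < fp (Qf H φ) z ∧ (fJ (Qf H φ) z ≠ 0 ∨ fJt (Qf H φ) z ≠ 0) := by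
    intro φ
    have c0 : ContDiff ℝ ((6 : ℕ) : ℕ∞) (Qf H φ) := Qf_sm h φ
    have hUo : IsOpen {z | 0 < fp (Qf H φ) z} := fp_open c0
    have hcont : ContinuousOn (fun z => |fJ (Qf H φ) z| + |fJt (Qf H φ) z|) {z | 0 < fp (Qf H φ) z} := fun z hz =>
      ((fJ_at c0 hz).continuousAt.abs.add (fJt_at c0 hz).continuousAt.abs).continuousWithinAt
    have hUo2 := hcont.isOpen_inter_preimage hUo isOpen_Ioi (t := Ioi (0 : ℝ))
    obtain ⟨δ, hδ, h2⟩ := box (T := 12) (s₀ := s₀) hUo2 (by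
      intro t _
      obtain ⟨h3, h4⟩ := nondeg h hr hv φ t
      refine ⟨h3, ?_⟩
      simp only [mem_preimage, mem_Ioi]
      rcases h4 with h4 | h4
      · have := abs_pos.2 h4
        positivity
      · have := abs_pos.2 h4
        positivity)
    refine ⟨δ, hδ, fun z hz => ?_⟩
    obtain ⟨h3, h4⟩ := h2 z hz.1 hz.2.1 hz.2.2
    refine ⟨h3, ?_⟩
    simp only [mem_preimage, mem_Ioi] at h4
    by_contra hcon
    push Not at hcon
    rw [hcon.1, hcon.2] at h4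
    simp at h4
  have h2 : ∃ δ₁ : ℝ, 0 < δ₁ ∧ ∀ φ ∈ Φ, ∀ z ∈ Bx s₀ δ₁ 12, 0 < fp (Qf H φ) z ∧ (fJ (Qf H φ) z ≠ 0 ∨ fJt (Qf H φ) z ≠ 0) := by
    classical
    induction Φ using Finset.induction_on with
    | empty => exact ⟨1, one_pos, fun φ hφ => absurd hφ (Finset.notMem_empty φ)⟩
    | insert a s _ ih =>
      obtain ⟨δ₁, hδ₁, h3⟩ := ih
      obtain ⟨δ₂, hδ₂, h4⟩ := h1 a
      refine ⟨min δ₁ δ₂, lt_min hδ₁ hδ₂, fun φ hφ z hz => ?_⟩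
      rcases Finset.mem_insert.1 hφ with rfl | hφ
      · exact h4 z ⟨hz.1.trans (min_le_right _ _), hz.2.1.trans (min_le_right _ _), hz.2.2⟩
      · exact h3 φ hφ z ⟨hz.1.trans (min_le_left _ _), hz.2.1.trans (min_le_left _ _), hz.2.2⟩
  obtain ⟨δ₁, hδ₁, h3⟩ := h2
  refine ⟨min (δ₁ / 2) 1, lt_min (by linarith) one_pos, fun δ hδ hle => ?_⟩
  have hle1 : δ ≤ δ₁ / 2 := hle.trans (min_le_left _ _)
  have hle2 : δ ≤ 1 := hle.trans (min_le_right _ _)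
  have h4 : ∀ φ ∈ Φ, ∃ B : ℝ, 1 ≤ B ∧ ∀ α, |α| ≤ 2 * δ → (famH H φ α s₀ δ).Ok B := by
    intro φ hφ
    exact famF_ok (Qf_sm h φ) hδ hle2 fun z hz => h3 φ hφ z ⟨hz.1.trans (by linarith), hz.2.1.trans (by linarith), hz.2.2⟩
  clear h3
  classical
  induction Φ using Finset.induction_on with
  | empty => exact ⟨1, le_rfl, fun _ _ φ hφ => absurd hφ (Finset.notMem_empty φ)⟩
  | insert a s _ ih =>
    obtain ⟨B₁, hB₁, h5⟩ := ih fun φ hφ => h4 φ (Finset.mem_insert_of_mem hφ)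
    obtain ⟨B₂, hB₂, h6⟩ := h4 a (Finset.mem_insert_self a s)
    refine ⟨max B₁ B₂, hB₁.trans (le_max_left _ _), fun α hα φ hφ => ?_⟩
    rcases Finset.mem_insert.1 hφ with rfl | hφ
    · exact Ok_mono (h6 α hα) (le_max_right _ _)
    · exact Ok_mono (h5 α hα φ hφ) (le_max_left _ _)

theorem famH_ok {H : ℝ → ℝ → ℝ} (h : ContDiff ℝ 7 fun q : ℝ × ℝ => H q.1 q.2) {s₀ : ℝ} (hr : ∀ θ, 0 < rho (H s₀) θ) (hv : Mo H s₀) (Φ : Finset ℝ) :
    ∃ α₀ δ B : ℝ, 0 < α₀ ∧ α₀ < π / 2 ∧ 0 < δ ∧ 1 ≤ B ∧ ∀ α, |α| ≤ α₀ → ∀ φ ∈ Φ, (famH H φ α s₀ δ).Ok B := by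
  obtain ⟨δ₁, hδ₁, h1⟩ := famH_all (h.of_le (by norm_cast)) hr hv Φ
  have hδ : 0 < min δ₁ (1 / 2) := lt_min hδ₁ (by norm_num)
  obtain ⟨B, hB, h2⟩ := h1 (min δ₁ (1 / 2)) hδ (min_le_left _ _)
  refine ⟨min δ₁ (1 / 2), min δ₁ (1 / 2), B, hδ, ?_, hδ, hB, fun α hα φ hφ => h2 α (by linarith) φ hφ⟩
  have := pi_gt_three
  exact (min_le_right _ _).trans_lt (by linarith)

theorem famH_q {H : ℝ → ℝ → ℝ} (hp : ∀ s, Function.Periodic (H s) (2 * π)) (φ α s₀ δ s t : ℝ) :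
    (famH H φ α s₀ δ).q s t = Pool.Agent.Helper22.LP.hom (ga (H (s₀ + δ * (s - 1 / 2))) α) (cos φ - t * sin φ, sin φ + t * cos φ) :=
  Qf_hom hp φ α _ t

/-! ## shifts -/

open Pool.Agent.Helper22.OV (shf shf_smooth shf_rho exists_shift)

theorem shf_rho' {H : ℝ → ℝ → ℝ} (h : ContDiff ℝ 7 fun q : ℝ × ℝ => H q.1 q.2) (v : ℝ × ℝ) (s : ℝ) : rho (shf (H s) v) = rho (H s) := by
  have hs : ContDiff ℝ 2 (H s) := (h.of_le (by norm_num)).comp (contDiff_const.prodMk contDiff_id)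
  funext θ
  exact shf_rho v hs θ

theorem shf_vel {H : ℝ → ℝ → ℝ} (h : ContDiff ℝ 7 fun q : ℝ × ℝ => H q.1 q.2) (v : ℝ × ℝ) : vel (fun s => shf (H s) v) = vel H := by
  funext s θ
  unfold vel
  congr 1
  funext s
  rw [shf_rho' h]

theorem shf_Mo {H : ℝ → ℝ → ℝ} (h : ContDiff ℝ 7 fun q : ℝ × ℝ => H q.1 q.2) (v : ℝ × ℝ) {s : ℝ} (hm : Mo H s) : Mo (fun s => shf (H s) v) s := by
  unfold Mo
  rw [shf_vel h]
  exact hm

theorem shf_sm {H : ℝ → ℝ → ℝ} (h : ContDiff ℝ 7 fun q : ℝ × ℝ => H q.1 q.2) (v : ℝ × ℝ) : ContDiff ℝ 7 fun q : ℝ × ℝ => shf (H q.1) v q.2 := by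
  unfold shf
  have h1 : ContDiff ℝ 7 fun q : ℝ × ℝ => cos q.2 := by fun_prop
  have h2 : ContDiff ℝ 7 fun q : ℝ × ℝ => sin q.2 := by fun_prop
  exact h.add ((contDiff_const.mul h1).add (contDiff_const.mul h2))

theorem rho_cont {H : ℝ → ℝ → ℝ} (h : ContDiff ℝ 7 fun q : ℝ × ℝ => H q.1 q.2) : Continuous fun q : ℝ × ℝ => rho (H q.1) q.2 := by
  have h0 : ContDiff ℝ ((7 : ℕ) : ℕ∞) fun q : ℝ × ℝ => H q.1 q.2 := h.of_le (by norm_cast)
  have h1 : ContDiff ℝ ((6 : ℕ) : ℕ∞) fun q : ℝ × ℝ => Hd H q.1 q.2 := Hd_sm h0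
  have h2 : ContDiff ℝ ((5 : ℕ) : ℕ∞) fun q : ℝ × ℝ => Hd (Hd H) q.1 q.2 := Hd_sm h1
  exact h0.continuous.add h2.continuous

/-- ovals near an oval -/
theorem supp_near {H : ℝ → ℝ → ℝ} (h : ContDiff ℝ 7 fun q : ℝ × ℝ => H q.1 q.2) (hp : ∀ s, Function.Periodic (H s) (2 * π)) {s₀ : ℝ} (hr : ∀ θ, 0 < rho (H s₀) θ) :
    ∃ v : ℝ × ℝ, ∃ δ : ℝ, 0 < δ ∧ ∀ s, |s - s₀| ≤ δ → IsSupp (shf (H s) v) := by
  have hs : ∀ s, ContDiff ℝ 2 (H s) := fun s => (h.of_le (by norm_num)).comp (contDiff_const.prodMk contDiff_id)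
  obtain ⟨v, hv⟩ := exists_shift (hs s₀) (hp s₀) hr
  have hc1 : Continuous fun z : ℝ × ℝ × ℝ => shf (H z.2.1) v z.2.2 := (shf_sm h v).continuous.comp continuous_snd
  have hc2 : Continuous fun z : ℝ × ℝ × ℝ => rho (H z.2.1) z.2.2 := (rho_cont h).comp continuous_snd
  have hU : IsOpen {z : ℝ × ℝ × ℝ | 0 < shf (H z.2.1) v z.2.2 ∧ 0 < rho (H z.2.1) z.2.2} :=
    (isOpen_lt continuous_const hc1).inter (isOpen_lt continuous_const hc2)
  obtain ⟨δ, hδ, h1⟩ := box (T := 2 * π) (s₀ := s₀) hU fun t _ => ⟨hv.pos t, hr t⟩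
  refine ⟨v, δ, hδ, fun s hsδ => ?_⟩
  have hper : Function.Periodic (shf (H s) v) (2 * π) := by
    intro t
    unfold shf
    rw [hp s t, cos_add_two_pi, sin_add_two_pi]
  have hperr : Function.Periodic (rho (H s)) (2 * π) := by
    intro t
    unfold rho
    rw [hp s t, deriv_per (deriv_per (hp s)) t]
  have hpi := pi_pos
  have hred : ∀ t : ℝ, ∃ t' : ℝ, |t'| ≤ 2 * π ∧ shf (H s) v t = shf (H s) v t' ∧ rho (H s) t = rho (H s) t' := by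
    intro t
    obtain ⟨m, k, hm, hk⟩ : ∃ (m : ℝ) (k : ℤ), m ∈ Ico (0 : ℝ) (0 + 2 * π) ∧ t = m + k * (2 * π) := by
      refine ⟨toIcoMod (show 0 < 2 * π by positivity) 0 t, toIcoDiv (show 0 < 2 * π by positivity) 0 t, toIcoMod_mem_Ico _ 0 t, ?_⟩
      have h3 := toIcoMod_add_toIcoDiv_zsmul (show 0 < 2 * π by positivity) 0 t
      rw [zsmul_eq_mul] at h3
      exact h3.symm
    refine ⟨m, ?_, ?_, ?_⟩
    · rw [abs_le]
      constructor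
      · linarith [hm.1]
      · linarith [hm.2]
    · rw [hk]
      exact hper.int_mul k m
    · rw [hk]
      exact hperr.int_mul k m
  refine ⟨shf_smooth v (hs s), hper, fun t => ?_, fun t => ?_⟩
  · obtain ⟨t', h2, h3, -⟩ := hred t
    rw [h3]
    exact (h1 (0, s, t') (by simpa using hδ.le) hsδ h2).1
  · obtain ⟨t', h2, -, h3⟩ := hred t
    have h4 := (h1 (0, s, t') (by simpa using hδ.le) hsδ h2).2
    have h5 : rho (shf (H s) v) t = rho (H s) t := by rw [shf_rho' h]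
    change 0 < rho (shf (H s) v) t
    rw [h5, h3]
    exact h4

end Pool.Agent.Helper75.GCF
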