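import Pool.Agent.Helper75.GC.Quad
import Pool.Agent.Helper92.LA.D3
import Pool.Agent.Helper75.TW.Main

/-!
# Project GM: curves of positive definite quadratic forms: every curve with independent position and velocity is generic
-/

open MeasureTheory Real Set Filter Topology

set_option autoImplicit false

namespace Pool.Agent.Helper75.GCF

open Pool.Agent.Helper22.AE
open Pool.Agent.Helper22.AC (cntc)
open Pool.Agent.Helper92.LA (dl fdet_dl lcnt lcnt_eq)
open Pool.Agent.Helper22.LP (Fr fdet Hf area_lin fv hom nr nr_eq)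
open Pool.Agent.Helper75.TW (isSupp_one ldisc ldisc_eq)

/-- the support function of the ellipse `a x² + b x y + c y² ≤ 1` -/
noncomputable def He (a b c θ : ℝ) : ℝ := √(qt (4 * c / (4 * a * c - b ^ 2)) (-(4 * b) / (4 * a * c - b ^ 2)) (4 * a / (4 * a * c - b ^ 2)) θ)

theorem pd_c {a b c : ℝ} (ha : 0 < a) (hd : b ^ 2 < 4 * a * c) : 0 < c := by
  by_contra hcon
  push Not at hcon
  have := mul_nonpos_of_nonneg_of_nonpos (show 0 ≤ 4 * a by linarith) hcon
  nlinarith [sq_nonneg b]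

theorem He_eq {a b c : ℝ} (ha : 0 < a) (hd : b ^ 2 < 4 * a * c) :
    He a b c = Hf (fun _ => 1) (dl ((√a, 0), (b / (2 * √a), √(4 * a * c - b ^ 2) / (2 * √a)))) := by
  obtain ⟨r, hr⟩ : ∃ r, r = √a := ⟨_, rfl⟩
  obtain ⟨D, hD⟩ : ∃ D, D = √(4 * a * c - b ^ 2) := ⟨_, rfl⟩
  have hr0 : 0 < r := by rw [hr]; exact sqrt_pos.2 ha
  have hD0 : 0 < D := by rw [hD]; exact sqrt_pos.2 (by linarith)
  have hr2 : a = r ^ 2 := by rw [hr, sq_sqrt ha.le]
  have hD2 : 4 * a * c - b ^ 2 = D ^ 2 := by rw [hD, sq_sqrt (by linarith)]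
  have hc : c = (D ^ 2 + b ^ 2) / (4 * r ^ 2) := by
    rw [← hD2, ← hr2]
    field_simp
    ring
  rw [← hr, ← hD]
  funext θ
  unfold Hf hom
  rw [nr_eq, mul_one]
  unfold He
  rw [hD2]
  congr 1
  have hdet : fdet ((r, 0), (b / (2 * r), D / (2 * r))) = D / 2 := by
    unfold fdet
    simp only
    field_simp
    ring
  unfold fv dl
  rw [hdet]
  simp only
  unfold qt
  rw [hc, hr2]
  field_simp
  ring

/-- the number of integer points in an ellipse -/
noncomputable def cQ (a b c : ℝ) (v : ℝ × ℝ) (R : ℝ) : ℕ :=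
  Nat.card {k : ℤ × ℤ // a * ((k.1 : ℝ) - v.1) ^ 2 + b * ((k.1 : ℝ) - v.1) * ((k.2 : ℝ) - v.2) + c * ((k.2 : ℝ) - v.2) ^ 2 ≤ R ^ 2}

theorem He_cnt {a b c : ℝ} (ha : 0 < a) (hd : b ^ 2 < 4 * a * c) {R : ℝ} (hR : 0 ≤ R) (v : ℝ × ℝ) :
    cntc (He a b c) v R = (cQ a b c v R : ℝ) ∧ area (He a b c) = 2 * π / √(4 * a * c - b ^ 2) := by
  have he := He_eq ha hd
  obtain ⟨r, hr⟩ : ∃ r, r = √a := ⟨_, rfl⟩
  obtain ⟨D, hD⟩ : ∃ D, D = √(4 * a * c - b ^ 2) := ⟨_, rfl⟩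
  rw [← hr, ← hD] at he
  have hr0 : 0 < r := by rw [hr]; exact sqrt_pos.2 ha
  have hD0 : 0 < D := by rw [hD]; exact sqrt_pos.2 (by linarith)
  have hr2 : a = r ^ 2 := by rw [hr, sq_sqrt ha.le]
  have hD2 : 4 * a * c - b ^ 2 = D ^ 2 := by rw [hD, sq_sqrt (by linarith)]
  have hc : c = (D ^ 2 + b ^ 2) / (4 * r ^ 2) := by
    rw [← hD2, ← hr2]
    field_simp
    ring
  have hdet : fdet ((r, 0), (b / (2 * r), D / (2 * r))) = D / 2 := by
    unfold fdet
    simp only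
    field_simp
    ring
  have hdet0 : fdet ((r, 0), (b / (2 * r), D / (2 * r))) ≠ 0 := by
    rw [hdet]
    positivity
  have h1p : Function.Periodic (fun _ : ℝ => (1 : ℝ)) (2 * π) := fun _ => rfl
  rw [← hD, he]
  constructor
  · obtain ⟨v', hv'⟩ : ∃ v' : ℝ × ℝ, v' = (v.1 * r + v.2 * (b / (2 * r)), v.2 * (D / (2 * r))) := ⟨_, rfl⟩
    have h2 := lcnt_eq h1p hdet0 v' R
    have e1 : ((dl ((r, 0), (b / (2 * r), D / (2 * r)))).1.1 * v'.1 + (dl ((r, 0), (b / (2 * r), D / (2 * r)))).1.2 * v'.2,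
        (dl ((r, 0), (b / (2 * r), D / (2 * r)))).2.1 * v'.1 + (dl ((r, 0), (b / (2 * r), D / (2 * r)))).2.2 * v'.2) = v := by
      unfold dl
      rw [hdet, hv']
      refine Prod.ext ?_ ?_
      · simp only
        field_simp
        ring
      · simp only
        field_simp
        ring
    rw [e1, ← ldisc_eq hR] at h2
    rw [← h2]
    unfold ldisc cQ
    congr 1
    refine Nat.card_congr (Equiv.subtypeEquivRight fun k => ?_)
    have e2 : ((k.1 : ℝ) * r + (k.2 : ℝ) * (b / (2 * r)) - v'.1) ^ 2 + ((k.1 : ℝ) * 0 + (k.2 : ℝ) * (D / (2 * r)) - v'.2) ^ 2 =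
        a * ((k.1 : ℝ) - v.1) ^ 2 + b * ((k.1 : ℝ) - v.1) * ((k.2 : ℝ) - v.2) + c * ((k.2 : ℝ) - v.2) ^ 2 := by
      rw [hv', hc, hr2]
      simp only
      field_simp
      ring
    simp only
    rw [e2]
  · rw [area_lin h1p (by rw [fdet_dl hdet0, hdet]; positivity), fdet_dl hdet0, hdet, Pool.Agent.Helper92.GC.area_one, abs_of_pos (by positivity)]
    field_simp

end Pool.Agent.Helper75.GCF
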