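import Pool.Agent.Helper75.GC.FamH
import Mathlib.Analysis.Calculus.BumpFunction.Basic

/-!
# Project GM: families on open sets of parameters
-/

open MeasureTheory Real Set Filter Topology

set_option autoImplicit false

namespace Pool.Agent.Helper75.GCF

open Pool.Agent.Helper22.AE
open Pool.Agent.Helper22.AC (cntc)

/-- the bound for the oval with support function `G` -/
def Ex (G : ℝ → ℝ) : Prop := ∀ ε : ℝ, 0 < ε → ∃ C : ℝ, ∀ R : ℝ, 1 ≤ R → ∀ c : ℝ × ℝ, |cntc G c R - area G * R ^ 2| ≤ C * R ^ (5 / 9 + ε)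

/-- the theorem for families on the line -/
def MainG : Prop := ∀ H : ℝ → ℝ → ℝ, (ContDiff ℝ 7 fun q : ℝ × ℝ => H q.1 q.2) → (∀ s, Function.Periodic (H s) (2 * π)) →
  ∀ᵐ s : ℝ, (∀ θ, 0 < rho (H s) θ) → Mo H s → Ex (H s)

/-- a smooth map of the line into a neighbourhood of a point, the identity near the point -/
theorem exists_clamp {I : Set ℝ} {s₀ : ℝ} (hI : I ∈ 𝓝 s₀) : ∃ g : ℝ → ℝ, ContDiff ℝ 7 g ∧ (∀ s, g s ∈ I) ∧ ∃ V : Set ℝ, IsOpen V ∧ s₀ ∈ V ∧ V ⊆ I ∧ ∀ s ∈ V, g s = s := by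
  obtain ⟨r, hr, h1⟩ := Metric.mem_nhds_iff.1 hI
  obtain ⟨χ, hχ⟩ : ∃ χ : ContDiffBump s₀, χ = ⟨r / 4, r / 2, by linarith, by linarith⟩ := ⟨_, rfl⟩
  have e1 : χ.rIn = r / 4 := by rw [hχ]
  have e2 : χ.rOut = r / 2 := by rw [hχ]
  refine ⟨fun s => s₀ + (s - s₀) * χ s, ?_, fun s => h1 ?_, Metric.ball s₀ (r / 4), Metric.isOpen_ball, Metric.mem_ball_self (by linarith), ?_, ?_⟩
  · exact contDiff_const.add ((contDiff_id.sub contDiff_const).mul χ.contDiff)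
  · rw [Metric.mem_ball, Real.dist_eq, add_sub_cancel_left, abs_mul, abs_of_nonneg χ.nonneg]
    by_cases hs : r / 2 ≤ dist s s₀
    · rw [χ.zero_of_le_dist (by rw [e2]; exact hs), mul_zero]
      exact hr
    · push Not at hs
      rw [Real.dist_eq] at hs
      have h2 := χ.le_one (x := s)
      have h3 := χ.nonneg (x := s)
      nlinarith [abs_nonneg (s - s₀)]
  · exact (Metric.ball_subset_ball (by linarith)).trans h1
  · intro s hs
    have h2 : χ s = 1 := χ.one_of_mem_closedBall (by rw [e1]; exact Metric.ball_subset_closedBall hs)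
    simp only
    rw [h2]
    ring

theorem Mo_congr {H G : ℝ → ℝ → ℝ} {V : Set ℝ} (hV : IsOpen V) (h : ∀ s ∈ V, G s = H s) {s : ℝ} (hs : s ∈ V) : Mo G s ↔ Mo H s := by
  have e : vel G s = vel H s := by
    funext θ
    unfold vel
    refine Filter.EventuallyEq.deriv_eq ?_
    filter_upwards [hV.mem_nhds hs] with s' hs'
    rw [h s' hs']
  unfold Mo
  rw [e]

/-- families on an open set of parameters, for any property -/
theorem mainLP {P : (ℝ → ℝ) → Prop} (hG : ∀ H : ℝ → ℝ → ℝ, (ContDiff ℝ 7 fun q : ℝ × ℝ => H q.1 q.2) → (∀ s, Function.Periodic (H s) (2 * π)) →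
    ∀ᵐ s : ℝ, (∀ θ, 0 < rho (H s) θ) → Mo H s → P (H s)) {I : Set ℝ} (hI : IsOpen I) {H : ℝ → ℝ → ℝ} (h : ContDiffOn ℝ 7 (fun q : ℝ × ℝ => H q.1 q.2) (I ×ˢ univ))
    (hp : ∀ s ∈ I, Function.Periodic (H s) (2 * π)) : ∀ᵐ s : ℝ, s ∈ I → (∀ θ, 0 < rho (H s) θ) → Mo H s → P (H s) := by
  rw [ae_iff]
  refine measure_null_of_locally_null _ fun s₀ hs₀ => ?_
  have h0 : s₀ ∈ I := by
    by_contra hcon
    exact hs₀ fun h => absurd h hcon
  obtain ⟨g, hg, hgI, V, hV, hsV, -, hgV⟩ := exists_clamp (hI.mem_nhds h0)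
  have h1 : ContDiff ℝ 7 fun q : ℝ × ℝ => H (g q.1) q.2 := by
    have h2 : ContDiffOn ℝ 7 (fun q : ℝ × ℝ => H (g q.1) q.2) univ := by
      refine h.comp (f := fun q : ℝ × ℝ => (g q.1, q.2)) ?_ fun q _ => ⟨hgI q.1, mem_univ _⟩
      exact ((hg.comp contDiff_fst).prodMk contDiff_snd).contDiffOn
    exact contDiffOn_univ.1 h2
  have h3 := hG (fun s => H (g s)) h1 fun s => hp _ (hgI s)
  refine ⟨V ∩ {s | ¬(s ∈ I → (∀ θ, 0 < rho (H s) θ) → Mo H s → P (H s))},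
    Filter.inter_mem (mem_nhdsWithin_of_mem_nhds (hV.mem_nhds hsV)) self_mem_nhdsWithin, ?_⟩
  refine measure_mono_null ?_ (ae_iff.1 h3)
  rintro s ⟨hs1, hs2⟩
  refine fun h4 => hs2 fun _ h5 h6 => ?_
  have e : H (g s) = H s := by rw [hgV s hs1]
  simp only [e] at h4
  exact h4 h5 ((Mo_congr hV (fun s' hs' => by simp only [hgV s' hs']) hs1).2 h6)

/-- families on an open set of parameters -/
theorem mainL (hG : MainG) {I : Set ℝ} (hI : IsOpen I) {H : ℝ → ℝ → ℝ} (h : ContDiffOn ℝ 7 (fun q : ℝ × ℝ => H q.1 q.2) (I ×ˢ univ))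
    (hp : ∀ s ∈ I, Function.Periodic (H s) (2 * π)) : ∀ᵐ s : ℝ, s ∈ I → (∀ θ, 0 < rho (H s) θ) → Mo H s → Ex (H s) :=
  mainLP hG hI h hp

end Pool.Agent.Helper75.GCF
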