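import Pool.Agent.Helper75.GC.Nd

/-!
# Project GM: the derivative of the shear and the velocity of the logarithm of the radius of curvature
-/

open Real Set Filter Topology

set_option autoImplicit false

namespace Pool.Agent.Helper75.GCF

open Pool.Agent.Helper22.AE
open Pool.Agent.Helper22.AC (ga)

/-- the velocity of the logarithm of the radius of curvature -/
noncomputable def vel (H : ℝ → ℝ → ℝ) (s θ : ℝ) : ℝ := deriv (fun s => log (rho (H s) θ)) s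

/-- the velocity is a Morse function of the direction -/
def Mo (H : ℝ → ℝ → ℝ) (s : ℝ) : Prop := ∀ θ, deriv (vel H s) θ ≠ 0 ∨ deriv (deriv (vel H s)) θ ≠ 0

theorem tan_chart {v w w1 : ℝ → ℝ} {w2 φ t₀ : ℝ} (h1 : ∀ t, HasDerivAt w (w1 t) t) (h2 : HasDerivAt w1 w2 t₀) (h : ∀ t, v (arctan t + φ) = w t)
    (hw : w1 t₀ = 0) (hw2 : w2 = 0) : deriv v (arctan t₀ + φ) = 0 ∧ deriv (deriv v) (arctan t₀ + φ) = 0 := by
  have hmem : ∀ᶠ θ in 𝓝 (arctan t₀ + φ), θ - φ ∈ Ioo (-(π / 2)) (π / 2) := by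
    have hc : Continuous fun θ : ℝ => θ - φ := continuous_id.sub continuous_const
    refine hc.continuousAt.eventually_mem (isOpen_Ioo.mem_nhds ?_)
    rw [add_sub_cancel_right]
    exact ⟨neg_pi_div_two_lt_arctan _, arctan_lt_pi_div_two _⟩
  have hder : ∀ θ, θ - φ ∈ Ioo (-(π / 2)) (π / 2) → HasDerivAt v (w1 (tan (θ - φ)) * (1 / cos (θ - φ) ^ 2)) θ := by
    intro θ hθ
    have hc : cos (θ - φ) ≠ 0 := (cos_pos_of_mem_Ioo hθ).ne'
    have h3 : HasDerivAt (fun θ => tan (θ - φ)) (1 / cos (θ - φ) ^ 2) θ := by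
      have := (hasDerivAt_tan hc).comp_sub_const θ φ
      exact this
    have h4 := (h1 (tan (θ - φ))).comp θ h3
    refine h4.congr_of_eventuallyEq ?_
    have hc' : Continuous fun θ : ℝ => θ - φ := continuous_id.sub continuous_const
    filter_upwards [hc'.continuousAt.eventually_mem (isOpen_Ioo.mem_nhds hθ)] with θ' hθ'
    have h5 := h (tan (θ' - φ))
    rw [arctan_tan hθ'.1 hθ'.2, sub_add_cancel] at h5
    exact h5
  have hev : deriv v =ᶠ[𝓝 (arctan t₀ + φ)] fun θ => w1 (tan (θ - φ)) * (1 / cos (θ - φ) ^ 2) := by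
    filter_upwards [hmem] with θ hθ
    exact (hder θ hθ).deriv
  have e1 : arctan t₀ + φ - φ = arctan t₀ := by ring
  have hc : cos (arctan t₀ + φ - φ) ≠ 0 := by
    rw [e1]
    exact (cos_arctan_pos _).ne'
  refine ⟨?_, ?_⟩
  · rw [hev.self_of_nhds]
    simp only
    rw [e1, tan_arctan, hw, zero_mul]
  · rw [hev.deriv_eq]
    have h3 : HasDerivAt (fun θ => tan (θ - φ)) (1 / cos (arctan t₀ + φ - φ) ^ 2) (arctan t₀ + φ) := (hasDerivAt_tan hc).comp_sub_const _ φ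
    have h4 : HasDerivAt (fun θ => w1 (tan (θ - φ))) (w2 * (1 / cos (arctan t₀ + φ - φ) ^ 2)) (arctan t₀ + φ) := by
      refine HasDerivAt.comp (h₂ := w1) _ ?_ h3
      rw [e1, tan_arctan]
      exact h2
    have h5 : HasDerivAt (fun θ => cos (θ - φ)) (-sin (arctan t₀ + φ - φ)) (arctan t₀ + φ) := (hasDerivAt_cos _).comp_sub_const _ φ
    have h6 : DifferentiableAt ℝ (fun θ => 1 / cos (θ - φ) ^ 2) (arctan t₀ + φ) := by
      have h7 : DifferentiableAt ℝ (fun θ => cos (θ - φ) ^ 2) (arctan t₀ + φ) := h5.differentiableAt.pow 2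
      exact (differentiableAt_const _).div h7 (pow_ne_zero 2 hc)
    have h8 := h4.mul h6.hasDerivAt
    refine h8.deriv.trans ?_
    rw [e1, tan_arctan, hw, hw2]
    ring

theorem fp_zero {H : ℝ → ℝ → ℝ} (h : ContDiff ℝ ((7 : ℕ) : ℕ∞) fun q : ℝ × ℝ => H q.1 q.2) (φ s t : ℝ) :
    fp (Qf H φ) (0, s, t) = rho (H s) (arctan t + φ) / √(1 + t ^ 2) ^ 3 := by
  unfold fp
  rw [Qf_t h]
  simp only
  unfold ga
  simp

theorem nondeg {H : ℝ → ℝ → ℝ} (h : ContDiff ℝ ((7 : ℕ) : ℕ∞) fun q : ℝ × ℝ => H q.1 q.2) {s₀ : ℝ} (hr : ∀ θ, 0 < rho (H s₀) θ) (hv : Mo H s₀) (φ t₀ : ℝ) :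
    0 < fp (Qf H φ) (0, s₀, t₀) ∧ (fJ (Qf H φ) (0, s₀, t₀) ≠ 0 ∨ fJt (Qf H φ) (0, s₀, t₀) ≠ 0) := by
  obtain ⟨F, hF⟩ : ∃ F, F = Qf H φ := ⟨_, rfl⟩
  have c0 : ContDiff ℝ ((6 : ℕ) : ℕ∞) F := by
    rw [hF]
    exact Qf_sm h φ
  have c1 : ContDiff ℝ ((4 : ℕ) : ℕ∞) (fp F) := Dt_sm (Dt_sm c0)
  have hz : ∀ s t, fp F (0, s, t) = rho (H s) (arctan t + φ) / √(1 + t ^ 2) ^ 3 := by
    intro s t
    rw [hF]
    exact fp_zero h φ s t
  have hsq : ∀ t : ℝ, 0 < √(1 + t ^ 2) ^ 3 := fun t => by positivity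
  have hpos : ∀ t, 0 < fp F (0, s₀, t) := by
    intro t
    rw [hz]
    exact div_pos (hr _) (hsq t)
  obtain ⟨w, hw⟩ : ∃ w : ℝ → ℝ, w = fun t => Ds (fun z => log (fp F z)) (0, s₀, t) := ⟨_, rfl⟩
  have c2 : ∀ t, ContDiffAt ℝ ((4 : ℕ) : ℕ∞) (fun z => log (fp F z)) (0, s₀, t) := fun t => c1.contDiffAt.log (hpos t).ne'
  have c3 : ∀ t, ContDiffAt ℝ ((3 : ℕ) : ℕ∞) (Ds fun z => log (fp F z)) (0, s₀, t) := fun t => Ds_at (c2 t)
  have hvw : ∀ t, vel H s₀ (arctan t + φ) = w t := by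
    intro t
    have h1 := Ds_hd (z := (0, s₀, t)) ((c2 t).differentiableAt (by norm_num))
    simp only at h1
    have h2 : HasDerivAt (fun s => log (rho (H s) (arctan t + φ))) (Ds (fun z => log (fp F z)) (0, s₀, t)) s₀ := by
      have h3 := h1.add_const (log (√(1 + t ^ 2) ^ 3))
      refine h3.congr_of_eventuallyEq ?_
      have hc : Continuous fun s : ℝ => ((0, s, t) : ℝ × ℝ × ℝ) := by fun_prop
      have h4 : ∀ᶠ s in 𝓝 s₀, 0 < fp F (0, s, t) := (hc.continuousAt).eventually_mem ((fp_open c0).mem_nhds (hpos t))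
      filter_upwards [h4] with s hs
      rw [hz] at hs ⊢
      have h5 : rho (H s) (arctan t + φ) ≠ 0 := by
        intro h0
        rw [h0, zero_div] at hs
        exact lt_irrefl _ hs
      rw [log_div h5 (hsq t).ne']
      ring
    rw [hw]
    exact h2.deriv
  have hw1 : ∀ t, HasDerivAt w (Dt (Ds fun z => log (fp F z)) (0, s₀, t)) t := by
    intro t
    rw [hw]
    exact Dt_hd (z := (0, s₀, t)) ((c3 t).differentiableAt (by norm_num))
  have hw2 : HasDerivAt (fun t => Dt (Ds fun z => log (fp F z)) (0, s₀, t)) (Dt (Dt (Ds fun z => log (fp F z))) (0, s₀, t₀)) t₀ :=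
    Dt_hd (z := (0, s₀, t₀)) ((Dt_at (c3 t₀)).differentiableAt (by norm_num))
  have hJ : ∀ t, fJ F (0, s₀, t) = -(1 / 3) * Dt (Ds fun z => log (fp F z)) (0, s₀, t) := fun t => fJ_log c0 (hpos t)
  have hJt : fJt F (0, s₀, t₀) = -(1 / 3) * Dt (Dt (Ds fun z => log (fp F z))) (0, s₀, t₀) := by
    have h1 := Dt_hd (z := (0, s₀, t₀)) ((fJ_at c0 (hpos t₀)).differentiableAt (by norm_num))
    simp only [hJ] at h1
    exact h1.unique (hw2.const_mul _)
  rw [← hF]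
  refine ⟨hpos t₀, ?_⟩
  by_contra hcon
  push Not at hcon
  obtain ⟨h1, h2⟩ := hcon
  rw [hJ] at h1
  rw [hJt] at h2
  have h3 : Dt (Ds fun z => log (fp F z)) (0, s₀, t₀) = 0 := by linarith
  have h4 : Dt (Dt (Ds fun z => log (fp F z))) (0, s₀, t₀) = 0 := by linarith
  obtain ⟨h5, h6⟩ := tan_chart hw1 hw2 hvw h3 h4
  rcases hv (arctan t₀ + φ) with h7 | h7
  · exact h7 h5
  · exact h7 h6

end Pool.Agent.Helper75.GCF
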