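import Pool.Agent.Helper75.GC.Cur

/-!
# Project GC: the derivative of the shear, neighbourhoods of a member of the family
-/

open Real Set Filter Topology

set_option autoImplicit false

namespace Pool.Agent.Helper75.GCF

open Pool.Agent.Helper22.AE
open Pool.Agent.Helper22.AC (ga)

/-! ## local forms -/

theorem Dt_at {F : ℝ × ℝ × ℝ → ℝ} {z : ℝ × ℝ × ℝ} {n : ℕ} (h : ContDiffAt ℝ ((n + 1 : ℕ) : ℕ∞) F z) : ContDiffAt ℝ (n : ℕ∞) (Dt F) z := by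
  unfold Dt
  exact (h.fderiv_right (m := ((n : ℕ∞) : WithTop ℕ∞)) (by push_cast; exact le_rfl)).clm_apply contDiffAt_const

theorem Ds_at {F : ℝ × ℝ × ℝ → ℝ} {z : ℝ × ℝ × ℝ} {n : ℕ} (h : ContDiffAt ℝ ((n + 1 : ℕ) : ℕ∞) F z) : ContDiffAt ℝ (n : ℕ∞) (Ds F) z := by
  unfold Ds
  exact (h.fderiv_right (m := ((n : ℕ∞) : WithTop ℕ∞)) (by push_cast; exact le_rfl)).clm_apply contDiffAt_const

theorem Dst {F : ℝ × ℝ × ℝ → ℝ} {z : ℝ × ℝ × ℝ} (h : ContDiffAt ℝ ((2 : ℕ) : ℕ∞) F z) : Ds (Dt F) z = Dt (Ds F) z := by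
  have h1 : ContDiffAt ℝ ((1 : ℕ) : ℕ∞) (fderiv ℝ F) z := h.fderiv_right (m := ((1 : ℕ∞) : WithTop ℕ∞)) (by norm_num)
  have h2 : HasFDerivAt (fderiv ℝ F) (fderiv ℝ (fderiv ℝ F) z) z := (h1.differentiableAt (by norm_num)).hasFDerivAt
  have h3 : ∀ v w : ℝ × ℝ × ℝ, fderiv ℝ (fun z => fderiv ℝ F z v) z w = fderiv ℝ (fderiv ℝ F) z w v := by
    intro v w
    have h4 := (ContinuousLinearMap.apply ℝ ℝ v).hasFDerivAt (x := fderiv ℝ F z) |>.comp z h2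
    have e : (fun z => fderiv ℝ F z v) = (ContinuousLinearMap.apply ℝ ℝ v) ∘ fderiv ℝ F := rfl
    rw [e, h4.fderiv]
    rfl
  have h5 : IsSymmSndFDerivAt ℝ F z := h.isSymmSndFDerivAt (by simp)
  change fderiv ℝ (fun z => fderiv ℝ F z (0, 0, 1)) z (0, 1, 0) = fderiv ℝ (fun z => fderiv ℝ F z (0, 1, 0)) z (0, 0, 1)
  rw [h3, h3]
  exact h5 _ _

/-! ## the functions of the family -/

/-- `p = ∂²q/∂t²` -/
noncomputable def fp (F : ℝ × ℝ × ℝ → ℝ) : ℝ × ℝ × ℝ → ℝ := Dt (Dt F)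

/-- `∂³q/∂t³` -/
noncomputable def f3 (F : ℝ × ℝ × ℝ → ℝ) : ℝ × ℝ × ℝ → ℝ := Dt (fp F)

/-- `∂⁴q/∂t⁴` -/
noncomputable def f4 (F : ℝ × ℝ × ℝ → ℝ) : ℝ × ℝ × ℝ → ℝ := Dt (f3 F)

/-- the shear -/
noncomputable def fx (F : ℝ × ℝ × ℝ → ℝ) (z : ℝ × ℝ × ℝ) : ℝ := -(f3 F z / (3 * fp F z))

/-- the derivative of the shear in `s` -/
noncomputable def fJ (F : ℝ × ℝ × ℝ → ℝ) : ℝ × ℝ × ℝ → ℝ := Ds (fx F)

/-- its derivative in `t` -/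
noncomputable def fJt (F : ℝ × ℝ × ℝ → ℝ) : ℝ × ℝ × ℝ → ℝ := Dt (fJ F)

theorem fx_log {F : ℝ × ℝ × ℝ → ℝ} (h : ContDiff ℝ ((6 : ℕ) : ℕ∞) F) {z : ℝ × ℝ × ℝ} (hz : 0 < fp F z) :
    fx F z = -(1 / 3) * Dt (fun z => log (fp F z)) z := by
  have c1 : ContDiff ℝ ((4 : ℕ) : ℕ∞) (fp F) := Dt_sm (Dt_sm h)
  have h1 := Dt_hd (z := z) ((c1.differentiable (by norm_num)) z)
  have h2 : HasDerivAt (fun t => log (fp F (z.1, z.2.1, t))) (Dt (fp F) z / fp F z) z.2.2 := h1.log hz.ne'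
  have h3 : DifferentiableAt ℝ (fun z => log (fp F z)) z := ((c1.differentiable (by norm_num)) z).log hz.ne'
  have h4 := (Dt_hd (z := z) h3).unique h2
  rw [h4]
  unfold fx f3
  field_simp

theorem fx_at {F : ℝ × ℝ × ℝ → ℝ} (h : ContDiff ℝ ((6 : ℕ) : ℕ∞) F) {z : ℝ × ℝ × ℝ} (hz : 0 < fp F z) : ContDiffAt ℝ ((3 : ℕ) : ℕ∞) (fx F) z := by
  have c1 : ContDiff ℝ ((4 : ℕ) : ℕ∞) (fp F) := Dt_sm (Dt_sm h)
  have c2 : ContDiff ℝ ((3 : ℕ) : ℕ∞) (f3 F) := Dt_sm c1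
  have c3 : ContDiff ℝ ((3 : ℕ) : ℕ∞) (fp F) := c1.of_le (by norm_cast)
  exact (c2.contDiffAt.div (contDiffAt_const.mul c3.contDiffAt) (by positivity)).neg

theorem fJ_at {F : ℝ × ℝ × ℝ → ℝ} (h : ContDiff ℝ ((6 : ℕ) : ℕ∞) F) {z : ℝ × ℝ × ℝ} (hz : 0 < fp F z) : ContDiffAt ℝ ((2 : ℕ) : ℕ∞) (fJ F) z :=
  Ds_at (fx_at h hz)

theorem fJt_at {F : ℝ × ℝ × ℝ → ℝ} (h : ContDiff ℝ ((6 : ℕ) : ℕ∞) F) {z : ℝ × ℝ × ℝ} (hz : 0 < fp F z) : ContDiffAt ℝ ((1 : ℕ) : ℕ∞) (fJt F) z :=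
  Dt_at (fJ_at h hz)

theorem fp_open {F : ℝ × ℝ × ℝ → ℝ} (h : ContDiff ℝ ((6 : ℕ) : ℕ∞) F) : IsOpen {z | 0 < fp F z} := by
  have c1 : ContDiff ℝ ((4 : ℕ) : ℕ∞) (fp F) := Dt_sm (Dt_sm h)
  exact isOpen_lt continuous_const c1.continuous

theorem fJ_log {F : ℝ × ℝ × ℝ → ℝ} (h : ContDiff ℝ ((6 : ℕ) : ℕ∞) F) {z : ℝ × ℝ × ℝ} (hz : 0 < fp F z) :
    fJ F z = -(1 / 3) * Dt (Ds fun z => log (fp F z)) z := by
  have c1 : ContDiff ℝ ((4 : ℕ) : ℕ∞) (fp F) := Dt_sm (Dt_sm h)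
  have c2 : ContDiffAt ℝ ((2 : ℕ) : ℕ∞) (fun z => log (fp F z)) z := (c1.of_le (by norm_cast)).contDiffAt.log hz.ne'
  have h1 : fx F =ᶠ[𝓝 z] fun z => -(1 / 3) * Dt (fun z => log (fp F z)) z := by
    filter_upwards [(fp_open h).mem_nhds hz] with y hy
    exact fx_log h hy
  have h2 : DifferentiableAt ℝ (Dt fun z => log (fp F z)) z := (Dt_at c2).differentiableAt (by norm_num)
  have h3 : fJ F z = -(1 / 3) * Ds (Dt fun z => log (fp F z)) z := by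
    unfold fJ Ds
    rw [h1.fderiv_eq, fderiv_const_mul h2]
    simp
  rw [h3, Dst c2]

/-! ## boxes -/

theorem box {U : Set (ℝ × ℝ × ℝ)} (hU : IsOpen U) {s₀ T : ℝ} (h : ∀ t, |t| ≤ T → ((0, s₀, t) : ℝ × ℝ × ℝ) ∈ U) :
    ∃ δ : ℝ, 0 < δ ∧ ∀ z : ℝ × ℝ × ℝ, |z.1| ≤ δ → |z.2.1 - s₀| ≤ δ → |z.2.2| ≤ T → z ∈ U := by
  have hK : IsCompact (({0} : Set ℝ) ×ˢ (({s₀} : Set ℝ) ×ˢ Icc (-T) T)) := isCompact_singleton.prod (isCompact_singleton.prod isCompact_Icc)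
  obtain ⟨δ, hδ, h1⟩ := hK.exists_cthickening_subset_open hU (by
    rintro ⟨a, b, c⟩ ⟨h1, h2, h3⟩
    simp only [mem_singleton_iff] at h1 h2
    subst h1 h2
    exact h c (abs_le.2 h3))
  refine ⟨δ, hδ, fun z h2 h3 h4 => h1 ?_⟩
  refine Metric.mem_cthickening_of_dist_le z (0, s₀, z.2.2) δ _ ⟨rfl, rfl, abs_le.1 h4⟩ ?_
  rw [Prod.dist_eq, Prod.dist_eq, Real.dist_eq, Real.dist_eq, dist_self]
  simp only [sub_zero]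
  exact max_le h2 (max_le h3 hδ.le)

end Pool.Agent.Helper75.GCF
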