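import Mathlib

/-!
# Project GC: partial derivatives of functions of three variables `(α, s, t)`
-/

open Real Set Filter Topology

set_option autoImplicit false

namespace Pool.Agent.Helper75.GCF

/-- the derivative in `t` -/
noncomputable def Dt (F : ℝ × ℝ × ℝ → ℝ) (z : ℝ × ℝ × ℝ) : ℝ := fderiv ℝ F z (0, 0, 1)

/-- the derivative in `s` -/
noncomputable def Ds (F : ℝ × ℝ × ℝ → ℝ) (z : ℝ × ℝ × ℝ) : ℝ := fderiv ℝ F z (0, 1, 0)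

theorem Dt_sm {F : ℝ × ℝ × ℝ → ℝ} {n : ℕ} (h : ContDiff ℝ ((n + 1 : ℕ) : ℕ∞) F) : ContDiff ℝ (n : ℕ∞) (Dt F) := by
  unfold Dt
  exact (h.fderiv_right (m := ((n : ℕ∞) : WithTop ℕ∞)) (by push_cast; exact le_rfl)).clm_apply contDiff_const

theorem Ds_sm {F : ℝ × ℝ × ℝ → ℝ} {n : ℕ} (h : ContDiff ℝ ((n + 1 : ℕ) : ℕ∞) F) : ContDiff ℝ (n : ℕ∞) (Ds F) := by
  unfold Ds
  exact (h.fderiv_right (m := ((n : ℕ∞) : WithTop ℕ∞)) (by push_cast; exact le_rfl)).clm_apply contDiff_const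

theorem Dt_hd {F : ℝ × ℝ × ℝ → ℝ} {z : ℝ × ℝ × ℝ} (h : DifferentiableAt ℝ F z) : HasDerivAt (fun t => F (z.1, z.2.1, t)) (Dt F z) z.2.2 := by
  have h1 : HasDerivAt (fun t : ℝ => ((z.1, z.2.1, t) : ℝ × ℝ × ℝ)) (0, 0, 1) z.2.2 :=
    (hasDerivAt_const _ _).prodMk ((hasDerivAt_const _ _).prodMk (hasDerivAt_id _))
  exact (h.hasFDerivAt (x := z)).comp_hasDerivAt (f := fun t : ℝ => ((z.1, z.2.1, t) : ℝ × ℝ × ℝ)) z.2.2 h1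

theorem Ds_hd {F : ℝ × ℝ × ℝ → ℝ} {z : ℝ × ℝ × ℝ} (h : DifferentiableAt ℝ F z) : HasDerivAt (fun s => F (z.1, s, z.2.2)) (Ds F z) z.2.1 := by
  have h1 : HasDerivAt (fun s : ℝ => ((z.1, s, z.2.2) : ℝ × ℝ × ℝ)) (0, 1, 0) z.2.1 :=
    (hasDerivAt_const _ _).prodMk ((hasDerivAt_id _).prodMk (hasDerivAt_const _ _))
  exact (h.hasFDerivAt (x := z)).comp_hasDerivAt (f := fun s : ℝ => ((z.1, s, z.2.2) : ℝ × ℝ × ℝ)) z.2.1 h1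

end Pool.Agent.Helper75.GCF
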