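import Pool.Agent.Helper75.GC.Loc

/-!
# Project GM: curves of quadratic forms
-/

open MeasureTheory Real Set Filter Topology

set_option autoImplicit false

namespace Pool.Agent.Helper75.GCF

open Pool.Agent.Helper22.AE
open Pool.Agent.Helper22.AC (cntc)

/-- a quadratic form on the circle -/
noncomputable def qt (A B C θ : ℝ) : ℝ := A * cos θ ^ 2 + B * (cos θ * sin θ) + C * sin θ ^ 2

/-- its derivative -/
noncomputable def qt' (A B C θ : ℝ) : ℝ := B * cos θ ^ 2 + 2 * (C - A) * (cos θ * sin θ) - B * sin θ ^ 2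

theorem qt_hd (A B C θ : ℝ) : HasDerivAt (qt A B C) (qt' A B C θ) θ := by
  have hc := hasDerivAt_cos θ
  have hs := hasDerivAt_sin θ
  have h := (((hc.pow 2).const_mul A).add ((hc.mul hs).const_mul B)).add ((hs.pow 2).const_mul C)
  refine h.congr_deriv ?_
  unfold qt'
  push_cast
  ring

theorem qt'_hd (A B C θ : ℝ) : HasDerivAt (qt' A B C) (qt' B (2 * (C - A)) (-B) θ) θ := by
  have h := qt_hd B (2 * (C - A)) (-B) θ
  have e : qt B (2 * (C - A)) (-B) = qt' A B C := by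
    funext θ
    unfold qt qt'
    ring
  rwa [e] at h

theorem qt_id (A B C θ : ℝ) : 4 * qt A B C θ ^ 2 + 2 * qt A B C θ * qt' B (2 * (C - A)) (-B) θ - qt' A B C θ ^ 2 = 4 * A * C - B ^ 2 := by
  have h := sin_sq_add_cos_sq θ
  have e : 4 * qt A B C θ ^ 2 + 2 * qt A B C θ * qt' B (2 * (C - A)) (-B) θ - qt' A B C θ ^ 2 = (4 * A * C - B ^ 2) * (sin θ ^ 2 + cos θ ^ 2) ^ 2 := by
    unfold qt qt'
    ring
  rw [e, h]
  ring

theorem qt_pos {A B C : ℝ} (hA : 0 < A) (h : B ^ 2 < 4 * A * C) (θ : ℝ) : 0 < qt A B C θ := by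
  have h1 : 4 * A * qt A B C θ = (2 * A * cos θ + B * sin θ) ^ 2 + (4 * A * C - B ^ 2) * sin θ ^ 2 := by
    unfold qt
    ring
  have h2 := sin_sq_add_cos_sq θ
  by_contra hcon
  push Not at hcon
  have h3 : 4 * A * qt A B C θ ≤ 0 := mul_nonpos_of_nonneg_of_nonpos (by linarith) hcon
  have h4 : 0 ≤ (2 * A * cos θ + B * sin θ) ^ 2 := sq_nonneg _
  have h5 : 0 ≤ (4 * A * C - B ^ 2) * sin θ ^ 2 := mul_nonneg (by linarith) (sq_nonneg _)
  have h6 : (4 * A * C - B ^ 2) * sin θ ^ 2 = 0 := by linarith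
  have h7 : sin θ = 0 := by
    rcases mul_eq_zero.1 h6 with h | h
    · linarith
    · exact pow_eq_zero_iff (two_ne_zero) |>.1 h
  have h8 : (2 * A * cos θ + B * sin θ) ^ 2 = 0 := by linarith
  rw [h7, mul_zero, add_zero] at h8
  have h9 : cos θ = 0 := by
    have := pow_eq_zero_iff (two_ne_zero) |>.1 h8
    rcases mul_eq_zero.1 this with h | h
    · linarith
    · exact h
  rw [h7, h9] at h2
  norm_num at h2

/-- the radius of curvature of an ellipse -/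
theorem rho_sqrt {A B C : ℝ} (hA : 0 < A) (h : B ^ 2 < 4 * A * C) (θ : ℝ) :
    rho (fun θ => √(qt A B C θ)) θ = (4 * A * C - B ^ 2) / (4 * √(qt A B C θ) ^ 3) := by
  have hq : ∀ θ, 0 < qt A B C θ := qt_pos hA h
  have h1 : ∀ θ, HasDerivAt (fun θ => √(qt A B C θ)) (qt' A B C θ / (2 * √(qt A B C θ))) θ := fun θ => (qt_hd A B C θ).sqrt (hq θ).ne'
  have e1 : deriv (fun θ => √(qt A B C θ)) = fun θ => qt' A B C θ / (2 * √(qt A B C θ)) := funext fun θ => (h1 θ).deriv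
  have hs : 0 < √(qt A B C θ) := sqrt_pos.2 (hq θ)
  have h2 := (qt'_hd A B C θ).div ((h1 θ).const_mul 2) (by positivity)
  have e2 : deriv (fun θ => qt' A B C θ / (2 * √(qt A B C θ))) θ = _ := h2.deriv
  unfold rho
  rw [e1, e2]
  beta_reduce
  obtain ⟨r, hr⟩ : ∃ r, r = √(qt A B C θ) := ⟨_, rfl⟩
  have hr2 : qt A B C θ = r ^ 2 := by rw [hr, sq_sqrt (hq θ).le]
  have hid := qt_id A B C θ
  rw [hr2] at hid
  rw [← hr] at hs ⊢
  rw [← hid]
  field_simp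
  ring

/-- the Wronskian of two forms -/
theorem wr_id (f0 f1 f2 g0 g1 g2 θ : ℝ) : qt' f0 f1 f2 θ * qt g0 g1 g2 θ - qt f0 f1 f2 θ * qt' g0 g1 g2 θ =
    qt (f1 * g0 - f0 * g1) (2 * (f2 * g0 - f0 * g2)) (f2 * g1 - f1 * g2) θ := by
  have h := sin_sq_add_cos_sq θ
  have e : qt' f0 f1 f2 θ * qt g0 g1 g2 θ - qt f0 f1 f2 θ * qt' g0 g1 g2 θ =
      qt (f1 * g0 - f0 * g1) (2 * (f2 * g0 - f0 * g2)) (f2 * g1 - f1 * g2) θ * (sin θ ^ 2 + cos θ ^ 2) := by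
    unfold qt qt'
    ring
  rw [e, h, mul_one]

/-- the zeros of the Wronskian are simple -/
theorem wr_simple {f0 f1 f2 g0 g1 g2 : ℝ} (hg : 0 < g0) (hg2 : g1 ^ 2 < 4 * g0 * g2) {θ : ℝ}
    (h1 : qt (f1 * g0 - f0 * g1) (2 * (f2 * g0 - f0 * g2)) (f2 * g1 - f1 * g2) θ = 0)
    (h2 : qt' (f1 * g0 - f0 * g1) (2 * (f2 * g0 - f0 * g2)) (f2 * g1 - f1 * g2) θ = 0) : f1 * g0 - f0 * g1 = 0 ∧ f2 * g0 - f0 * g2 = 0 := by
  obtain ⟨P, hP⟩ : ∃ P, P = f1 * g0 - f0 * g1 := ⟨_, rfl⟩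
  obtain ⟨Q, hQ⟩ : ∃ Q, Q = f2 * g0 - f0 * g2 := ⟨_, rfl⟩
  obtain ⟨W, hW⟩ : ∃ W, W = f2 * g1 - f1 * g2 := ⟨_, rfl⟩
  have hPQ : g0 * W = g1 * Q - g2 * P := by
    rw [hP, hQ, hW]
    ring
  rw [← hP, ← hQ, ← hW] at h1 h2
  rw [← hP, ← hQ]
  obtain ⟨x, hx⟩ : ∃ x, x = cos θ := ⟨_, rfl⟩
  obtain ⟨y, hy⟩ : ∃ y, y = sin θ := ⟨_, rfl⟩
  have hxy : x ^ 2 + y ^ 2 = 1 := by
    rw [hx, hy]
    exact cos_sq_add_sin_sq θ
  unfold qt at h1
  unfold qt' at h2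
  rw [← hx, ← hy] at h1 h2
  -- the gradient vanishes
  have g1' : 2 * P * x + 2 * Q * y = 0 := by
    have : 2 * P * x + 2 * Q * y = (2 * P * x + 2 * Q * y) * (x ^ 2 + y ^ 2) := by rw [hxy, mul_one]
    rw [this]
    linear_combination 2 * x * h1 - y * h2
  have g2' : 2 * Q * x + 2 * W * y = 0 := by
    have : 2 * Q * x + 2 * W * y = (2 * Q * x + 2 * W * y) * (x ^ 2 + y ^ 2) := by rw [hxy, mul_one]
    rw [this]
    linear_combination 2 * y * h1 + x * h2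
  have hdet : Q ^ 2 - P * W = 0 := by
    have e1 : (Q ^ 2 - P * W) * x = 0 := by linear_combination Q / 2 * g2' - W / 2 * g1'
    have e2 : (Q ^ 2 - P * W) * y = 0 := by linear_combination Q / 2 * g1' - P / 2 * g2'
    have e3 : (Q ^ 2 - P * W) * (x ^ 2 + y ^ 2) = 0 := by linear_combination x * e1 + y * e2
    rwa [hxy, mul_one] at e3
  have hpos : g0 * Q ^ 2 - g1 * (P * Q) + g2 * P ^ 2 = 0 := by linear_combination g0 * hdet + P * hPQ
  have h3 : (2 * g0 * Q - g1 * P) ^ 2 + (4 * g0 * g2 - g1 ^ 2) * P ^ 2 = 0 := by linear_combination 4 * g0 * hpos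
  have h4 : 0 ≤ (2 * g0 * Q - g1 * P) ^ 2 := sq_nonneg _
  have h5 : 0 ≤ (4 * g0 * g2 - g1 ^ 2) * P ^ 2 := mul_nonneg (by linarith) (sq_nonneg _)
  have h6 : P = 0 := by
    have : (4 * g0 * g2 - g1 ^ 2) * P ^ 2 = 0 := by linarith
    rcases mul_eq_zero.1 this with h | h
    · linarith
    · exact pow_eq_zero_iff (two_ne_zero) |>.1 h
  refine ⟨h6, ?_⟩
  have h7 : (2 * g0 * Q - g1 * P) ^ 2 = 0 := by linarith
  have h8 := pow_eq_zero_iff (two_ne_zero) |>.1 h7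
  rw [h6, mul_zero, sub_zero] at h8
  rcases mul_eq_zero.1 h8 with h | h
  · linarith
  · exact h

end Pool.Agent.Helper75.GCF
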