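import Pool.Agent.Helper75.GC.Part
import Pool.Agent.Helper22.AC.Defs
import Pool.Agent.Helper22.LP.Defs

/-!
# Project GC: the phases of a family of support functions in the coordinates of the slope
-/

open Real Set Filter Topology

set_option autoImplicit false

namespace Pool.Agent.Helper75.GCF

open Pool.Agent.Helper22.AE
open Pool.Agent.Helper22.AC (ga)
open Pool.Agent.Helper22.LP (hom nr tr cp)

/-- the phase of `k = (1, t)`, rotated by the angle `φ`, for the support functions `ga (H s) α` -/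
noncomputable def Qf (H : ℝ → ℝ → ℝ) (φ : ℝ) (z : ℝ × ℝ × ℝ) : ℝ := √(1 + z.2.2 ^ 2) * ga (H z.2.1) z.1 (arctan z.2.2 + φ)

theorem hom_polar {γ : ℝ → ℝ} (hγ : Function.Periodic γ (2 * π)) {r : ℝ} (hr : 0 < r) (θ : ℝ) : hom γ (r * cos θ, r * sin θ) = r * γ θ := by
  have e1 : cp (r * cos θ, r * sin θ) = (r : ℂ) * (Complex.cos θ + Complex.sin θ * Complex.I) := by
    unfold cp
    apply Complex.ext
    · simp [Complex.cos_ofReal_re, Complex.sin_ofReal_re, Complex.cos_ofReal_im, Complex.sin_ofReal_im]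
    · simp [Complex.cos_ofReal_re, Complex.sin_ofReal_re, Complex.cos_ofReal_im, Complex.sin_ofReal_im]
  have e2 : nr (r * cos θ, r * sin θ) = r := by
    unfold nr
    rw [e1, norm_mul, Complex.norm_cos_add_sin_mul_I, mul_one, Complex.norm_real, norm_of_nonneg hr.le]
  have e3 : γ (tr (r * cos θ, r * sin θ)) = γ θ := by
    have h1 : ((tr (r * cos θ, r * sin θ) : ℝ) : Real.Angle) = ((θ : ℝ) : Real.Angle) := by
      unfold tr
      rw [e1]
      have h := Complex.arg_mul_cos_add_sin_mul_I_coe_angle hr ((θ : ℝ) : Real.Angle)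
      rwa [Real.Angle.cos_coe, Real.Angle.sin_coe, Complex.ofReal_cos, Complex.ofReal_sin] at h
    obtain ⟨k, hk⟩ := Real.Angle.angle_eq_iff_two_pi_dvd_sub.1 h1
    have h2 : tr (r * cos θ, r * sin θ) = θ + k * (2 * π) := by linarith
    rw [h2]
    exact hγ.int_mul k θ
  unfold hom
  rw [e2, e3]

theorem arc_polar (φ t : ℝ) : √(1 + t ^ 2) * cos (arctan t + φ) = cos φ - t * sin φ ∧ √(1 + t ^ 2) * sin (arctan t + φ) = sin φ + t * cos φ := by
  have h0 : 0 < 1 + t ^ 2 := by positivity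
  have h1 : √(1 + t ^ 2) * cos (arctan t) = 1 := by
    rw [cos_arctan]
    field_simp
  have h2 : √(1 + t ^ 2) * sin (arctan t) = t := by
    rw [sin_arctan]
    field_simp
  rw [cos_add, sin_add]
  constructor
  · linear_combination cos φ * h1 - sin φ * h2
  · linear_combination cos φ * h2 + sin φ * h1

theorem Qf_hom {H : ℝ → ℝ → ℝ} (hp : ∀ s, Function.Periodic (H s) (2 * π)) (φ α s t : ℝ) :
    Qf H φ (α, s, t) = hom (ga (H s) α) (cos φ - t * sin φ, sin φ + t * cos φ) := by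
  have hg : Function.Periodic (ga (H s) α) (2 * π) := by
    intro x
    have h1 : Function.Periodic (deriv (H s)) (2 * π) := by
      intro y
      rw [← deriv_comp_add_const]
      congr 1
      funext z
      exact hp s z
    unfold ga
    rw [show x + 2 * π + α = x + α + 2 * π by ring, hp s, h1]
  have h0 : 0 < 1 + t ^ 2 := by positivity
  obtain ⟨h1, h2⟩ := arc_polar φ t
  have h3 := hom_polar hg (sqrt_pos.2 h0) (arctan t + φ)
  rw [h1, h2] at h3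
  rw [h3]
  rfl

/-- the derivative in the direction -/
noncomputable def Hd (H : ℝ → ℝ → ℝ) (s θ : ℝ) : ℝ := deriv (H s) θ

theorem Hd_sm {H : ℝ → ℝ → ℝ} {n : ℕ} (h : ContDiff ℝ ((n + 1 : ℕ) : ℕ∞) fun q : ℝ × ℝ => H q.1 q.2) : ContDiff ℝ (n : ℕ∞) fun q : ℝ × ℝ => Hd H q.1 q.2 := by
  have e : (fun q : ℝ × ℝ => Hd H q.1 q.2) = fun q : ℝ × ℝ => fderiv ℝ (fun q : ℝ × ℝ => H q.1 q.2) q (0, 1) := by
    funext q
    have h1 : HasDerivAt (fun t : ℝ => ((q.1, t) : ℝ × ℝ)) (0, 1) q.2 := (hasDerivAt_const _ _).prodMk (hasDerivAt_id _)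
    have h2 : DifferentiableAt ℝ (fun q : ℝ × ℝ => H q.1 q.2) q := (h.differentiable (by simp)) q
    exact ((h2.hasFDerivAt (x := q)).comp_hasDerivAt (f := fun t : ℝ => ((q.1, t) : ℝ × ℝ)) q.2 h1).deriv
  rw [e]
  exact (h.fderiv_right (m := ((n : ℕ∞) : WithTop ℕ∞)) (by push_cast; exact le_rfl)).clm_apply contDiff_const

theorem Hd_hd {H : ℝ → ℝ → ℝ} {n : ℕ} (h : ContDiff ℝ ((n + 1 : ℕ) : ℕ∞) fun q : ℝ × ℝ => H q.1 q.2) (s θ : ℝ) : HasDerivAt (H s) (Hd H s θ) θ := by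
  have h1 : ContDiff ℝ ((n + 1 : ℕ) : ℕ∞) (H s) := h.comp (contDiff_const.prodMk contDiff_id)
  exact ((h1.differentiable (by simp)) θ).hasDerivAt

/-- `ga` as a function of all variables -/
noncomputable def Gf (H : ℝ → ℝ → ℝ) (z : ℝ × ℝ × ℝ) : ℝ := ga (H z.2.1) z.1 z.2.2

theorem Gf_sm {H : ℝ → ℝ → ℝ} {n : ℕ} (h : ContDiff ℝ ((n + 1 : ℕ) : ℕ∞) fun q : ℝ × ℝ => H q.1 q.2) : ContDiff ℝ (n : ℕ∞) (Gf H) := by
  have h1 : ContDiff ℝ (n : ℕ∞) fun q : ℝ × ℝ => H q.1 q.2 := h.of_le (by push_cast; exact le_self_add)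
  have h2 := Hd_sm h
  have e : ContDiff ℝ (n : ℕ∞) fun z : ℝ × ℝ × ℝ => ((z.2.1, z.2.2 + z.1) : ℝ × ℝ) := by fun_prop
  have h3 : ContDiff ℝ (n : ℕ∞) fun z : ℝ × ℝ × ℝ => cos z.1 := by fun_prop
  have h4 : ContDiff ℝ (n : ℕ∞) fun z : ℝ × ℝ × ℝ => sin z.1 := by fun_prop
  exact ((h1.comp e).mul h3).sub ((h2.comp e).mul h4)

theorem Qf_sm {H : ℝ → ℝ → ℝ} {n : ℕ} (h : ContDiff ℝ ((n + 1 : ℕ) : ℕ∞) fun q : ℝ × ℝ => H q.1 q.2) (φ : ℝ) : ContDiff ℝ (n : ℕ∞) (Qf H φ) := by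
  have e : ContDiff ℝ (n : ℕ∞) fun z : ℝ × ℝ × ℝ => ((z.1, z.2.1, arctan z.2.2 + φ) : ℝ × ℝ × ℝ) := by
    have : ContDiff ℝ (n : ℕ∞) fun z : ℝ × ℝ × ℝ => arctan z.2.2 := contDiff_arctan.comp (by fun_prop)
    fun_prop
  have h1 : ContDiff ℝ (n : ℕ∞) fun z : ℝ × ℝ × ℝ => √(1 + z.2.2 ^ 2) := by
    refine ContDiff.sqrt (by fun_prop) fun z => ?_
    positivity
  exact h1.mul ((Gf_sm h).comp e)

end Pool.Agent.Helper75.GCF
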